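import Pool.Agent.Helper76_WH.LFGEN

/-!
# Module LFCORE (helper76): the last fold lemma for core graphs and a closed path
-/

namespace Pool.Agent.Helper35_WH

open FreeGroup

namespace LF76

/-- words along paths can be read in the two vertex graph -/
theorem sw_path {n : ℕ} (G : LGraph (Fin n)) (z : Lt n) (s : Lt n → Bool) (side : G.V → Bool) :
    ∀ (L : List (G.E × Bool)) (x y : G.V), IsPath G.src G.tgt x L y →
      (∀ d ∈ L, ((G.lab d.1, d.2) ≠ z → side (G.org d) = s (G.lab d.1, d.2)) ∧
        ((G.lab d.1, !d.2) ≠ z → side (G.org (d.1, !d.2)) = s (G.lab d.1, !d.2))) →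
      ∃ k, SW z s (side x) (readW G.lab L) (side y) k
  | [], x, y, hp, _ => by
      have hp : x = y := hp
      subst hp
      exact ⟨0, SW.nil _⟩
  | (e, b) :: L, x, y, hp, h => by
      obtain ⟨k, hk⟩ := sw_path G z s side L _ y hp.2 (fun d hd => h d (List.mem_cons_of_mem _ hd))
      obtain ⟨h1, h2⟩ := h (e, b) List.mem_cons_self
      have e1 : x = G.org (e, b) := hp.1
      have e2 : (if b then G.tgt e else G.src e) = G.org (e, !b) := by cases b <;> rfl
      refine ⟨k + trav z s (side x) (G.lab e, b) (side (if b then G.tgt e else G.src e)),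
        SW.cons (G.lab e, b) (readW G.lab L) _ _ _ k ?_ ?_ hk⟩
      · intro hg
        rw [e1]
        exact h1 hg
      · intro hg
        rw [e2]
        exact h2 hg

theorem isReduced_triple {α : Type} {W : List (α × Bool)} (h : IsCyclicallyReduced W) :
    FreeGroup.IsReduced (W ++ W ++ W) := by
  have := (h.flatten_replicate 3).isReduced
  have e : (List.replicate 3 W).flatten = W ++ W ++ W := by
    simp [List.replicate, List.append_assoc]
  rwa [e] at this

/-- consecutive steps -/
theorem pair_of_path {V E : Type} {s t : E → V} : ∀ (C : List (E × Bool)) (h g : E × Bool)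
    (D : List (E × Bool)) (x y : V), IsPath s t x (C ++ h :: g :: D) y →
      (if h.2 then t h.1 else s h.1) = (if g.2 then s g.1 else t g.1)
  | [], (h, c), (g, d), D, x, y, hp => hp.2.1
  | a :: C, h, g, D, x, y, hp => pair_of_path C h g D _ y hp.2

theorem reduced_pair {α : Type} (C : List (α × Bool)) (h g : α × Bool) (D : List (α × Bool))
    (hr : FreeGroup.IsReduced (C ++ h :: g :: D)) : h.1 = g.1 → h.2 = g.2 := by
  unfold FreeGroup.IsReduced at hr
  have h1 := (List.isChain_append.1 hr).2.1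
  exact (List.isChain_cons_cons.1 h1).1

/-- in a closed path with cyclically reduced label, each step has a predecessor and a successor -/
theorem neighbours {n : ℕ} (G : LGraph (Fin n)) (x : G.V) (L : List (G.E × Bool))
    (hp : IsPath G.src G.tgt x L x) (hc : IsCyclicallyReduced (readW G.lab L))
    (g : G.E × Bool) (hg : g ∈ L) :
    (∃ h ∈ L, G.org (h.1, !h.2) = G.org g ∧ (G.lab h.1 = G.lab g.1 → h.2 = g.2)) ∧
    ∃ h ∈ L, G.org (g.1, !g.2) = G.org h ∧ (G.lab g.1 = G.lab h.1 → g.2 = h.2) := by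
  have hne : L ≠ [] := by
    rintro rfl
    exact absurd hg (by simp)
  have hp3 : IsPath G.src G.tgt x (L ++ L ++ L) x := isPath_append (isPath_append hp hp) hp
  have hr3 := isReduced_triple hc
  rw [← readW_append, ← readW_append] at hr3
  have horg : ∀ a : G.E × Bool, (if a.2 then G.tgt a.1 else G.src a.1) = G.org (a.1, !a.2) := by
    rintro ⟨a, b⟩
    cases b <;> rfl
  obtain ⟨A, B, hAB⟩ := List.append_of_mem hg
  constructor
  · obtain ⟨C, h, hC⟩ : ∃ C h, L ++ A = C ++ [h] := by
      rcases List.eq_nil_or_concat (L ++ A) with h0 | ⟨C, h, h0⟩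
      · exact absurd (List.append_eq_nil_iff.1 h0).1 hne
      · exact ⟨C, h, by simpa using h0⟩
    have e1 : L ++ L ++ L = C ++ h :: g :: (B ++ L) := by
      calc L ++ L ++ L = L ++ (A ++ g :: B) ++ L := by rw [← hAB]
        _ = (L ++ A) ++ g :: (B ++ L) := by simp [List.append_assoc]
        _ = C ++ h :: g :: (B ++ L) := by rw [hC]; simp [List.append_assoc]
    rw [e1] at hp3 hr3
    have h1 := pair_of_path C h g (B ++ L) x x hp3
    have hmem : h ∈ L := by
      have : h ∈ L ++ A := by rw [hC]; simp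
      rcases List.mem_append.1 this with h2 | h2
      · exact h2
      · rw [hAB]; exact List.mem_append_left _ h2
    refine ⟨h, hmem, ?_, ?_⟩
    · rw [← horg, h1]
      rfl
    · have hr4 : FreeGroup.IsReduced (readW G.lab C ++ (G.lab h.1, h.2) :: (G.lab g.1, g.2) ::
          readW G.lab (B ++ L)) := by
        have : readW G.lab (C ++ h :: g :: (B ++ L)) = readW G.lab C ++ (G.lab h.1, h.2) ::
            (G.lab g.1, g.2) :: readW G.lab (B ++ L) := by
          simp [readW]
        rwa [this] at hr3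
      exact reduced_pair _ _ _ _ hr4
  · obtain ⟨h, C, hC⟩ : ∃ h C, B ++ L = h :: C := by
      cases hBL : B ++ L with
      | nil => exact absurd (List.append_eq_nil_iff.1 hBL).2 hne
      | cons h C => exact ⟨h, C, rfl⟩
    have e1 : L ++ L ++ L = (L ++ A) ++ g :: h :: C := by
      calc L ++ L ++ L = L ++ (A ++ g :: B) ++ L := by rw [← hAB]
        _ = (L ++ A) ++ g :: (B ++ L) := by simp [List.append_assoc]
        _ = (L ++ A) ++ g :: h :: C := by rw [hC]
    rw [e1] at hp3 hr3
    have h1 := pair_of_path (L ++ A) g h C x x hp3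
    have hmem : h ∈ L := by
      have : h ∈ B ++ L := by rw [hC]; simp
      rcases List.mem_append.1 this with h2 | h2
      · rw [hAB]; exact List.mem_append_right _ (List.mem_cons_of_mem _ h2)
      · exact h2
    refine ⟨h, hmem, ?_, ?_⟩
    · rw [← horg, h1]
      rfl
    · have hr4 : FreeGroup.IsReduced (readW G.lab (L ++ A) ++ (G.lab g.1, g.2) :: (G.lab h.1, h.2) ::
          readW G.lab C) := by
        have : readW G.lab ((L ++ A) ++ g :: h :: C) = readW G.lab (L ++ A) ++ (G.lab g.1, g.2) ::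
            (G.lab h.1, h.2) :: readW G.lab C := by
          simp [readW]
        rwa [this] at hr3
      exact reduced_pair _ _ _ _ hr4

/-! ### Two vertices -/

theorem core_two {n : ℕ} (h1 : LFGenStatement) (G : LGraph (Fin n)) (o : G.V) (hc : G.Con o)
    (hs : G.Surj o) (hcard : Fintype.card G.E + 1 = Fintype.card G.V + n)
    (h2 : Fintype.card G.V = 2)
    (hd : ∀ u, ∃ d d' : G.E × Bool, d ≠ d' ∧ G.org d = u ∧ G.org d' = u)
    (u : G.V) (L : List (G.E × Bool)) (hL : IsPath G.src G.tgt u L u) :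
    ∃ z s a k, NontrivSplit z s ∧ SW z s a (readW G.lab L) a k := by
  classical
  obtain ⟨z, s, side, h3, h4⟩ := h1 n G o hc hs hcard (by omega)
  obtain ⟨k, hk⟩ := sw_path G z s side L u u hL (fun d _ => ⟨fun h => h3 d h,
    fun h => h3 (d.1, !d.2) h⟩)
  refine ⟨z, s, side u, k, ?_, hk⟩
  by_contra hn
  have hs0 : ∀ g, g ≠ z → s g = s (inv z) := by
    intro g hg
    by_contra hne
    exact hn ⟨g, inv z, hg, inv_ne z, hne⟩
  obtain ⟨d0, hd0, hb0⟩ := h4 (!s (inv z))
  obtain ⟨d2, hd2, hb2⟩ := h4 (s (inv z))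
  obtain ⟨d, d', hne, ho, ho'⟩ := hd (G.org d0)
  have hz : ∀ a : G.E × Bool, G.org a = G.org d0 → (G.lab a.1, a.2) = z := by
    intro a ha
    by_contra hza
    have h5 := h3 a hza
    rw [hs0 _ hza, ha, hb0] at h5
    cases hh : s (inv z) <;> rw [hh] at h5 <;> exact absurd h5 (by decide)
  have hzd := hz d ho
  have hzd' := hz d' ho'
  have horg : G.org d2 ≠ G.org d0 := by
    intro h5
    rw [h5, hb0] at hb2
    cases hh : s (inv z) <;> rw [hh] at hb2 <;> exact absurd hb2 (by decide)
  have hbz : ∀ a : G.E × Bool, (G.lab a.1, a.2) = z → a.2 = z.2 ∧ G.lab a.1 = z.1 := by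
    intro a ha
    exact ⟨congrArg Prod.snd ha, congrArg Prod.fst ha⟩
  have hE1 : d.1 ≠ d'.1 := fun h => hne (Prod.ext h ((hbz d hzd).1.trans (hbz d' hzd').1.symm))
  have hE2 : d2.1 ≠ d.1 := fun h => horg (by
    rw [← ho]
    exact congrArg G.org (Prod.ext h ((hbz d2 hd2).1.trans (hbz d hzd).1.symm)))
  have hE3 : d2.1 ≠ d'.1 := fun h => horg (by
    rw [← ho']
    exact congrArg G.org (Prod.ext h ((hbz d2 hd2).1.trans (hbz d' hzd').1.symm)))
  have hsurj : Function.Surjective (fun a : {a : G.E // a ≠ d.1 ∧ a ≠ d'.1} => G.lab a.1) := by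
    intro i
    by_cases hi : i = z.1
    · exact ⟨⟨d2.1, hE2, hE3⟩, (hbz d2 hd2).2.trans hi.symm⟩
    · obtain ⟨a, ha⟩ := lab_surjective G o hs i
      refine ⟨⟨a, ?_, ?_⟩, ha⟩
      · rintro rfl
        exact hi (ha.symm.trans (hbz d hzd).2)
      · rintro rfl
        exact hi (ha.symm.trans (hbz d' hzd').2)
  have h5 := Fintype.card_le_of_surjective _ hsurj
  rw [Fintype.card_fin] at h5
  have h6 : Fintype.card {a : G.E // a ≠ d.1 ∧ a ≠ d'.1} + 2 = Fintype.card G.E := by
    have e1 : Fintype.card {a : G.E // a ≠ d.1 ∧ a ≠ d'.1} =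
        (Finset.univ \ {d.1, d'.1} : Finset G.E).card := by
      rw [Fintype.card_subtype]
      congr 1
      ext a
      simp
    rw [e1, Finset.card_sdiff_of_subset (Finset.subset_univ _), Finset.card_pair hE1,
      Finset.card_univ]
    have : 2 ≤ Fintype.card G.E := by
      rw [← Finset.card_pair hE1]
      exact Finset.card_le_univ _
    omega
  omega

/-! ### Pruning -/

namespace FoldData

variable {n : ℕ} {G : LGraph (Fin n)} (D : FoldData G)

/-- if some vertex of the folded graph has at most one germ: structure -/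
theorem bad_vertex (hd : ∀ u, ∃ d d' : G.E × Bool, d ≠ d' ∧ G.org d = u ∧ G.org d' = u)
    (y : D.G'.V) (hy : ¬ ∃ d d' : D.G'.E × Bool, d ≠ d' ∧ D.G'.org d = y ∧ D.G'.org d' = y) :
    (∀ g, G.org g = G.org (D.e, D.b) → g = (D.e, D.b) ∨ g = (D.e', D.b)) := by
  obtain ⟨x, hx⟩ := D.mV_surj y
  have key : ∀ d d' : G.E × Bool, d ≠ d' → G.org d = x → G.org d' = x →
      d.2 = d'.2 ∧ ((d.1 = D.e ∧ d'.1 = D.e') ∨ (d.1 = D.e' ∧ d'.1 = D.e)) := by
    intro d d' hne h1 h2
    have h3 : ((D.mE d.1, d.2) : D.G'.E × Bool) = (D.mE d'.1, d'.2) := by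
      by_contra h4
      refine hy ⟨_, _, h4, ?_, ?_⟩
      · rw [← D.org_mE, h1, hx]
      · rw [← D.org_mE, h2, hx]
    have h4 : d.2 = d'.2 := (Prod.mk.inj h3).2
    have h5 : D.mE d.1 = D.mE d'.1 := congrArg Prod.fst h3
    have h6 : d.1 ≠ d'.1 := fun h => hne (Prod.ext h h4)
    refine ⟨h4, ?_⟩
    by_cases h7 : d.1 = D.e'
    · right
      refine ⟨h7, ?_⟩
      by_contra h8
      have h9 : d'.1 ≠ D.e' := fun h => h6 (h7.trans h.symm)
      have e1 : D.mE d.1 = ⟨D.e, D.he⟩ := dif_pos h7
      have e2 : D.mE d'.1 = ⟨d'.1, h9⟩ := dif_neg h9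
      rw [e1, e2] at h5
      exact h8 (congrArg Subtype.val h5).symm
    · have e1 : D.mE d.1 = ⟨d.1, h7⟩ := dif_neg h7
      by_cases h9 : d'.1 = D.e'
      · left
        have e2 : D.mE d'.1 = ⟨D.e, D.he⟩ := dif_pos h9
        rw [e1, e2] at h5
        exact ⟨congrArg Subtype.val h5, h9⟩
      · have e2 : D.mE d'.1 = ⟨d'.1, h9⟩ := dif_neg h9
        rw [e1, e2] at h5
        exact absurd (congrArg Subtype.val h5) h6
  obtain ⟨d, d', hne, ho, ho'⟩ := hd x
  obtain ⟨h2, h3⟩ := key d d' hne ho ho'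
  -- both edges start at `x` in the direction `d.2`
  have h4 : G.org (D.e, d.2) = x ∧ G.org (D.e', d.2) = x := by
    rcases h3 with ⟨h5, h6⟩ | ⟨h5, h6⟩
    · exact ⟨by rw [← h5]; exact ho, by rw [h2, ← h6]; exact ho'⟩
    · exact ⟨by rw [h2, ← h6]; exact ho', by rw [← h5]; exact ho⟩
  have h5 : d.2 = D.b := by
    by_contra h6
    have h7 : d.2 = !D.b := by
      cases hh : d.2 <;> cases hb : D.b <;> simp_all
    rw [h7] at h4
    exact D.hv (h4.1.trans h4.2.symm)
  rw [h5] at h4
  intro g hg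
  rw [h4.1] at hg
  by_cases h6 : g = (D.e, D.b)
  · exact Or.inl h6
  · obtain ⟨h7, h8⟩ := key g (D.e, D.b) h6 hg h4.1
    rcases h8 with ⟨h9, h10⟩ | ⟨h9, h10⟩
    · exact absurd h10 D.he
    · exact Or.inr (Prod.ext h9 h7)

/-- the hypothesis: only two germs at the common origin -/
def Bad : Prop := ∀ g, G.org g = G.org (D.e, D.b) → g = (D.e, D.b) ∨ g = (D.e', D.b)

variable {D}

theorem Bad.v_ne (h : D.Bad) : G.org (D.e, !D.b) ≠ G.org (D.e, D.b) := by
  intro h1
  rcases h _ h1 with h2 | h2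
  · have := congrArg Prod.snd h2
    cases hb : D.b <;> simp_all
  · have := congrArg Prod.snd h2
    cases hb : D.b <;> simp_all

theorem Bad.v'_ne (h : D.Bad) : G.org (D.e', !D.b) ≠ G.org (D.e, D.b) := by
  intro h1
  rcases h _ h1 with h2 | h2
  · have := congrArg Prod.snd h2
    cases hb : D.b <;> simp_all
  · have := congrArg Prod.snd h2
    cases hb : D.b <;> simp_all

theorem Bad.org_ne (h : D.Bad) (a : G.E) (c : Bool) (h1 : a ≠ D.e) (h2 : a ≠ D.e') :
    G.org (a, c) ≠ G.org (D.e, D.b) := by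
  intro h3
  rcases h _ h3 with h4 | h4
  · exact h1 (congrArg Prod.fst h4)
  · exact h2 (congrArg Prod.fst h4)

/-- the path does not use the two edges -/
theorem Bad.avoid (h : D.Bad) (x : G.V) (L : List (G.E × Bool))
    (hp : IsPath G.src G.tgt x L x) (hc : IsCyclicallyReduced (readW G.lab L))
    (g : G.E × Bool) (hg : g ∈ L) : g.1 ≠ D.e ∧ g.1 ≠ D.e' := by
  -- no step starts at the origin
  have hno : ∀ a ∈ L, G.org a ≠ G.org (D.e, D.b) := by
    intro a ha h1
    obtain ⟨⟨k, hk, h2, h3⟩, -⟩ := neighbours G x L hp hc a ha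
    rw [h1] at h2
    have h4 : (k.1, !k.2) = (D.e, D.b) ∨ (k.1, !k.2) = (D.e', D.b) := h _ h2
    have h5 : a = (D.e, D.b) ∨ a = (D.e', D.b) := h _ h1
    have h6 : G.lab k.1 = G.lab D.e ∧ k.2 = !D.b := by
      rcases h4 with h4 | h4
      · have e1 := congrArg Prod.fst h4
        have e2 := congrArg Prod.snd h4
        simp only at e1 e2
        exact ⟨by rw [e1], by rw [← e2]; simp⟩
      · have e1 := congrArg Prod.fst h4
        have e2 := congrArg Prod.snd h4
        simp only at e1 e2
        exact ⟨by rw [e1, D.hl], by rw [← e2]; simp⟩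
    have h7 : G.lab a.1 = G.lab D.e ∧ a.2 = D.b := by
      rcases h5 with h5 | h5
      · rw [h5]; exact ⟨rfl, rfl⟩
      · rw [h5]; exact ⟨D.hl.symm, rfl⟩
    have h8 := h3 (h6.1.trans h7.1.symm)
    rw [h6.2, h7.2] at h8
    cases hb : D.b <;> rw [hb] at h8 <;> exact absurd h8 (by decide)
  have hno' : ∀ a ∈ L, G.org (a.1, !a.2) ≠ G.org (D.e, D.b) := by
    intro a ha h1
    obtain ⟨-, ⟨k, hk, h2, -⟩⟩ := neighbours G x L hp hc a ha
    exact hno k hk (h2.symm.trans h1)
  have h1 := hno g hg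
  have h2 := hno' g hg
  obtain ⟨a, c⟩ := g
  have hcb : c = D.b ∨ (!c) = D.b := by cases c <;> cases D.b <;> simp
  constructor
  · rintro rfl
    rcases hcb with hcb | hcb
    · exact h1 (by rw [hcb])
    · exact h2 (by simp only [hcb])
  · rintro rfl
    rcases hcb with hcb | hcb
    · exact h1 (by rw [hcb]; exact D.ho.symm)
    · exact h2 (by simp only [hcb]; exact D.ho.symm)

/-- the map on vertices of the pruned graph -/
def pV (h : D.Bad) (x : G.V) :
    {x : G.V // x ≠ G.org (D.e', !D.b) ∧ x ≠ G.org (D.e, D.b)} :=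
  if hx : x ≠ G.org (D.e', !D.b) ∧ x ≠ G.org (D.e, D.b) then ⟨x, hx⟩
  else ⟨G.org (D.e, !D.b), D.hv, h.v_ne⟩

/-- the pruned graph -/
def pruned (h : D.Bad) : LGraph (Fin n) where
  V := {x : G.V // x ≠ G.org (D.e', !D.b) ∧ x ≠ G.org (D.e, D.b)}
  E := {x : G.E // x ≠ D.e ∧ x ≠ D.e'}
  src a := pV h (G.src a.1)
  tgt a := pV h (G.tgt a.1)
  lab a := G.lab a.1

/-- the map on edges -/
def pE (h : D.Bad) (x : G.E) : Option (pruned h).E :=
  if hx : x ≠ D.e ∧ x ≠ D.e' then some ⟨x, hx⟩ else none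

/-- the gauge -/
def pg (D : FoldData G) (x : G.V) : FreeGroup (Fin n) :=
  if x = G.org (D.e, D.b) then FreeGroup.mk [(G.lab D.e, D.b)] else 1

theorem pV_u (h : D.Bad) : pV h (G.org (D.e, D.b)) = ⟨G.org (D.e, !D.b), D.hv, h.v_ne⟩ :=
  dif_neg fun hx => hx.2 rfl

theorem pV_v' (h : D.Bad) : pV h (G.org (D.e', !D.b)) = ⟨G.org (D.e, !D.b), D.hv, h.v_ne⟩ :=
  dif_neg fun hx => hx.1 rfl

theorem pV_v (h : D.Bad) : pV h (G.org (D.e, !D.b)) = ⟨G.org (D.e, !D.b), D.hv, h.v_ne⟩ :=
  dif_pos ⟨D.hv, h.v_ne⟩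

theorem pE_some (h : D.Bad) (x : G.E) (f : (pruned h).E) (hf : pE h x = some f) :
    x ≠ D.e ∧ x ≠ D.e' ∧ f.1 = x := by
  unfold pE at hf
  split_ifs at hf with hx
  · have := Option.some_injective _ hf
    exact ⟨hx.1, hx.2, by rw [← this]⟩

theorem pE_none (h : D.Bad) (x : G.E) (hf : pE h x = none) : x = D.e ∨ x = D.e' := by
  unfold pE at hf
  split_ifs at hf with hx
  by_contra hc
  push Not at hc
  exact hx hc

theorem pE_ne_none (h : D.Bad) (x : G.E) (h1 : x ≠ D.e) (h2 : x ≠ D.e') : pE h x ≠ none := by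
  unfold pE
  rw [dif_pos ⟨h1, h2⟩]
  simp

theorem pruned_con_surj (h : D.Bad) {o : G.V} (hc : G.Con o) (hs : G.Surj o)
    (o' : (pruned h).V) : (pruned h).Con o' ∧ (pruned h).Surj o' := by
  refine transport_con_surj G (pruned h) (pV h) (pE h) (pg D) ?_ ?_ ?_ hc hs o'
  · intro e f hf
    obtain ⟨h1, h2, h3⟩ := pE_some h e f hf
    have e1 : pg D (G.src e) = 1 := if_neg (h.org_ne e true h1 h2)
    have e2 : pg D (G.tgt e) = 1 := if_neg (h.org_ne e false h1 h2)
    refine ⟨?_, ?_, ?_⟩
    · show _ = pV h (G.src f.1)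
      rw [h3]
    · show _ = pV h (G.tgt f.1)
      rw [h3]
    · rw [e1, e2]
      show _ = 1 * FreeGroup.of (G.lab f.1) * 1⁻¹
      rw [h3]
      simp
  · intro e hf
    have gu : pg D (G.org (D.e, D.b)) = FreeGroup.mk [(G.lab D.e, D.b)] := if_pos rfl
    have gv : pg D (G.org (D.e, !D.b)) = 1 := if_neg h.v_ne
    have gv' : pg D (G.org (D.e', !D.b)) = 1 := if_neg h.v'_ne
    have e3 : FreeGroup.mk [(G.lab D.e, false)] = (FreeGroup.of (G.lab D.e))⁻¹ := by
      rw [FreeGroup.of, FreeGroup.inv_mk]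
      rfl
    have e4 : FreeGroup.mk [(G.lab D.e, true)] = FreeGroup.of (G.lab D.e) := rfl
    have pu := pV_u h
    have pv := pV_v h
    have pv' := pV_v' h
    have ho := D.ho
    rcases pE_none h e hf with he | he
    · rw [he]
      cases hb : D.b with
      | true =>
        rw [hb] at gu gv
        simp only [hb] at pu pv
        have s1 : G.src D.e = G.org (D.e, true) := rfl
        have s2 : G.tgt D.e = G.org (D.e, !true) := rfl
        rw [s1, s2]
        refine ⟨?_, ?_⟩
        · exact pu.trans pv.symm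
        · rw [gu, gv, e4]; simp
      | false =>
        rw [hb] at gu gv
        simp only [hb] at pu pv
        have s1 : G.src D.e = G.org (D.e, !false) := rfl
        have s2 : G.tgt D.e = G.org (D.e, false) := rfl
        rw [s1, s2]
        refine ⟨?_, ?_⟩
        · exact pv.trans pu.symm
        · rw [gu, gv, e3]; simp
    · rw [he, ← D.hl]
      cases hb : D.b with
      | true =>
        rw [hb] at gu gv' ho
        simp only [hb] at pu pv'
        have s1 : G.src D.e' = G.org (D.e, true) := ho.symm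
        have s2 : G.tgt D.e' = G.org (D.e', !true) := rfl
        rw [s1, s2]
        refine ⟨?_, ?_⟩
        · exact pu.trans pv'.symm
        · rw [gu, gv', e4]; simp
      | false =>
        rw [hb] at gu gv' ho
        simp only [hb] at pu pv'
        have s1 : G.src D.e' = G.org (D.e', !false) := rfl
        have s2 : G.tgt D.e' = G.org (D.e, false) := ho.symm
        rw [s1, s2]
        refine ⟨?_, ?_⟩
        · exact pv'.trans pu.symm
        · rw [gu, gv', e3]; simp
  · rintro ⟨x, hx⟩
    exact ⟨x, dif_pos hx, if_neg hx.2⟩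

theorem pruned_card_V (h : D.Bad) : Fintype.card (pruned h).V + 2 = Fintype.card G.V := by
  classical
  have hE1 : G.org (D.e', !D.b) ≠ G.org (D.e, D.b) := h.v'_ne
  have e1 : Fintype.card (pruned h).V =
      (Finset.univ \ {G.org (D.e', !D.b), G.org (D.e, D.b)} : Finset G.V).card := by
    show Fintype.card {x : G.V // x ≠ G.org (D.e', !D.b) ∧ x ≠ G.org (D.e, D.b)} = _
    rw [Fintype.card_subtype]
    congr 1
    ext a
    simp
  rw [e1, Finset.card_sdiff_of_subset (Finset.subset_univ _), Finset.card_pair hE1,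
    Finset.card_univ]
  have : 2 ≤ Fintype.card G.V := by
    rw [← Finset.card_pair hE1]
    exact Finset.card_le_univ _
  omega

theorem pruned_card_E (h : D.Bad) : Fintype.card (pruned h).E + 2 = Fintype.card G.E := by
  classical
  have hE1 : D.e ≠ D.e' := D.he
  have e1 : Fintype.card (pruned h).E = (Finset.univ \ {D.e, D.e'} : Finset G.E).card := by
    show Fintype.card {x : G.E // x ≠ D.e ∧ x ≠ D.e'} = _
    rw [Fintype.card_subtype]
    congr 1
    ext a
    simp
  rw [e1, Finset.card_sdiff_of_subset (Finset.subset_univ _), Finset.card_pair hE1,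
    Finset.card_univ]
  have : 2 ≤ Fintype.card G.E := by
    rw [← Finset.card_pair hE1]
    exact Finset.card_le_univ _
  omega

/-- germs of the remaining graph at `v` and `v'` -/
theorem Bad.germs (h : D.Bad)
    (hd : ∀ u, ∃ d d' : G.E × Bool, d ≠ d' ∧ G.org d = u ∧ G.org d' = u) :
    (∃ g : G.E × Bool, g.1 ≠ D.e ∧ g.1 ≠ D.e' ∧ G.org g = G.org (D.e, !D.b)) ∧
    ∃ g : G.E × Bool, g.1 ≠ D.e ∧ g.1 ≠ D.e' ∧ G.org g = G.org (D.e', !D.b) := by
  have aux : ∀ (a : G.E), (a = D.e ∨ a = D.e') → ∀ c : Bool,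
      (G.org (a, c) = G.org (D.e, D.b) ∧ c = D.b) ∨ c = !D.b := by
    intro a ha c
    by_cases hcb : c = D.b
    · left
      refine ⟨?_, hcb⟩
      rcases ha with ha | ha
      · rw [ha, hcb]
      · rw [ha, hcb, D.ho]
    · right
      cases c <;> cases hb : D.b <;> simp_all
  constructor
  · obtain ⟨d, d', hne, ho, ho'⟩ := hd (G.org (D.e, !D.b))
    have key : ∀ g : G.E × Bool, G.org g = G.org (D.e, !D.b) → g ≠ (D.e, !D.b) →
        g.1 ≠ D.e ∧ g.1 ≠ D.e' := by
      rintro ⟨a, c⟩ hg hgne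
      constructor
      · intro ha
        simp only at ha
        rcases aux a (Or.inl ha) c with ⟨h1, -⟩ | h1
        · exact h.v_ne (hg.symm.trans h1)
        · exact hgne (Prod.ext ha h1)
      · intro ha
        simp only at ha
        rcases aux a (Or.inr ha) c with ⟨h1, -⟩ | h1
        · exact h.v_ne (hg.symm.trans h1)
        · rw [ha, h1] at hg
          exact D.hv hg.symm
    by_cases h1 : d = (D.e, !D.b)
    · have h2 : d' ≠ (D.e, !D.b) := fun h3 => hne (h1.trans h3.symm)
      exact ⟨d', (key d' ho' h2).1, (key d' ho' h2).2, ho'⟩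
    · exact ⟨d, (key d ho h1).1, (key d ho h1).2, ho⟩
  · obtain ⟨d, d', hne, ho, ho'⟩ := hd (G.org (D.e', !D.b))
    have key : ∀ g : G.E × Bool, G.org g = G.org (D.e', !D.b) → g ≠ (D.e', !D.b) →
        g.1 ≠ D.e ∧ g.1 ≠ D.e' := by
      rintro ⟨a, c⟩ hg hgne
      constructor
      · intro ha
        simp only at ha
        rcases aux a (Or.inl ha) c with ⟨h1, -⟩ | h1
        · exact h.v'_ne (hg.symm.trans h1)
        · rw [ha, h1] at hg
          exact D.hv hg
      · intro ha
        simp only at ha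
        rcases aux a (Or.inr ha) c with ⟨h1, -⟩ | h1
        · exact h.v'_ne (hg.symm.trans h1)
        · exact hgne (Prod.ext ha h1)
    by_cases h1 : d = (D.e', !D.b)
    · have h2 : d' ≠ (D.e', !D.b) := fun h3 => hne (h1.trans h3.symm)
      exact ⟨d', (key d' ho' h2).1, (key d' ho' h2).2, ho'⟩
    · exact ⟨d, (key d ho h1).1, (key d ho h1).2, ho⟩

theorem pruned_org (h : D.Bad) (a : G.E) (c : Bool) (ha : a ≠ D.e ∧ a ≠ D.e') :
    (pruned h).org (⟨a, ha⟩, c) = pV h (G.org (a, c)) := by
  cases c <;> rfl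

/-- degrees in the pruned graph -/
theorem pruned_germs (h : D.Bad)
    (hd : ∀ u, ∃ d d' : G.E × Bool, d ≠ d' ∧ G.org d = u ∧ G.org d' = u) (y : (pruned h).V) :
    ∃ d d' : (pruned h).E × Bool, d ≠ d' ∧ (pruned h).org d = y ∧ (pruned h).org d' = y := by
  obtain ⟨x, hx⟩ := y
  by_cases hv : x = G.org (D.e, !D.b)
  · subst hv
    obtain ⟨⟨g, hg1, hg2, hg3⟩, ⟨g', hg1', hg2', hg3'⟩⟩ := h.germs hd
    refine ⟨(⟨g.1, hg1, hg2⟩, g.2), (⟨g'.1, hg1', hg2'⟩, g'.2), ?_, ?_, ?_⟩
    · intro h1
      have h2 : g = g' := Prod.ext (congrArg Subtype.val (Prod.mk.inj h1).1) (Prod.mk.inj h1).2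
      rw [h2] at hg3
      exact D.hv (hg3.symm.trans hg3')
    · rw [pruned_org]
      show pV h (G.org g) = _
      rw [hg3]
      exact pV_v h
    · rw [pruned_org]
      show pV h (G.org g') = _
      rw [hg3']
      exact pV_v' h
  · obtain ⟨d, d', hne, ho, ho'⟩ := hd x
    have key : ∀ g : G.E × Bool, G.org g = x → g.1 ≠ D.e ∧ g.1 ≠ D.e' := by
      rintro ⟨a, c⟩ hg
      have hcb : c = D.b ∨ c = !D.b := by cases c <;> cases D.b <;> simp
      constructor
      · rintro rfl
        rcases hcb with hcb | hcb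
        · exact hx.2 (by rw [← hg, hcb])
        · exact hv (by rw [← hg, hcb])
      · rintro rfl
        rcases hcb with hcb | hcb
        · exact hx.2 (by rw [← hg, hcb]; exact D.ho.symm)
        · exact hx.1 (by rw [← hg, hcb])
    have k1 := key d ho
    have k2 := key d' ho'
    refine ⟨(⟨d.1, k1⟩, d.2), (⟨d'.1, k2⟩, d'.2), ?_, ?_, ?_⟩
    · intro h1
      exact hne (Prod.ext (congrArg Subtype.val (Prod.mk.inj h1).1) (Prod.mk.inj h1).2)
    · rw [pruned_org]
      show pV h (G.org d) = _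
      rw [ho]
      exact dif_pos hx
    · rw [pruned_org]
      show pV h (G.org d') = _
      rw [ho']
      exact dif_pos hx

end FoldData

/-- the case in which only one vertex remains -/
theorem core_last {n : ℕ} (G : LGraph (Fin n)) (D : FoldData G) (h : D.Bad) (o : G.V)
    (hc : G.Con o) (hs : G.Surj o) (hcard : Fintype.card G.E + 1 = Fintype.card G.V + n)
    (h3 : Fintype.card (FoldData.pruned h).V = 1)
    (hd : ∀ u, ∃ d d' : G.E × Bool, d ≠ d' ∧ G.org d = u ∧ G.org d' = u)
    (x : G.V) (L : List (G.E × Bool)) (hp : IsPath G.src G.tgt x L x) (hne : L ≠ [])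
    (hcr : IsCyclicallyReduced (readW G.lab L)) :
    ∃ z s a k, NontrivSplit z s ∧ SW z s a (readW G.lab L) a k := by
  classical
  have cV := FoldData.pruned_card_V h
  have cE := FoldData.pruned_card_E h
  have hE' : Fintype.card (FoldData.pruned h).E = n := by omega
  obtain ⟨hc', hs'⟩ := FoldData.pruned_con_surj h hc hs (FoldData.pV h o)
  have hsurj := lab_surjective (FoldData.pruned h) _ hs'
  have hbij : Function.Bijective (FoldData.pruned h).lab :=
    (Fintype.bijective_iff_surjective_and_card _).2 ⟨hsurj, by rw [hE']; simp⟩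
  have hinj : ∀ a b : G.E, a ≠ D.e → a ≠ D.e' → b ≠ D.e → b ≠ D.e' → G.lab a = G.lab b →
      a = b := by
    intro a b h1 h2 h4 h5 h6
    have : (⟨a, h1, h2⟩ : (FoldData.pruned h).E) = ⟨b, h4, h5⟩ := hbij.1 h6
    exact congrArg Subtype.val this
  choose f hf using hsurj
  have hfi : ∀ y : (FoldData.pruned h).E, f ((FoldData.pruned h).lab y) = y := fun y =>
    hbij.1 (hf _)
  have havoid := h.avoid x L hp hcr
  obtain ⟨⟨g1, hg1, hg2, hg3⟩, ⟨g2, hg1', hg2', hg3'⟩⟩ := h.germs hd
  let side : G.V → Bool := fun y => decide (y = G.org (D.e', !D.b))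
  let s : Lt n → Bool := fun g => side (G.org ((f g.1).1, g.2))
  have hside : ∀ (a : G.E) (c : Bool), a ≠ D.e → a ≠ D.e' →
      side (G.org (a, c)) = s (G.lab a, c) := by
    intro a c h1 h2
    have h4 : f (G.lab a) = ⟨a, h1, h2⟩ := hfi ⟨a, h1, h2⟩
    show side (G.org (a, c)) = side (G.org ((f (G.lab a)).1, c))
    rw [h4]
  have hno : ∃ z : G.E × Bool, z.1 ≠ D.e ∧ z.1 ≠ D.e' ∧ z ≠ g1 ∧ z ≠ g2 := by
    by_contra hcon
    push Not at hcon
    have hall : ∀ z : G.E × Bool, z.1 ≠ D.e → z.1 ≠ D.e' → z = g1 ∨ z = g2 := by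
      intro z h1 h2
      by_cases h4 : z = g1
      · exact Or.inl h4
      · exact Or.inr (hcon z h1 h2 h4)
    have hg12 : g2 = inv g1 := by
      rcases hall (inv g1) hg1 hg2 with h1 | h1
      · exact absurd h1 (inv_ne g1)
      · exact h1.symm
    obtain ⟨g, hg⟩ := List.exists_mem_of_ne_nil L hne
    obtain ⟨⟨k, hk, h4, h5⟩, -⟩ := neighbours G x L hp hcr g hg
    have a1 := havoid g hg
    have a2 := havoid k hk
    have hv12 : G.org g1 ≠ G.org g2 := by rw [hg3, hg3']; exact D.hv
    rcases hall g a1.1 a1.2 with e1 | e1 <;> rcases hall k a2.1 a2.2 with e2 | e2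
    · rw [e1, e2] at h4
      have : G.org (g1.1, !g1.2) = G.org g2 := by rw [hg12]; rfl
      exact hv12 (by rw [← this, h4])
    · rw [e1, e2, hg12] at h5
      have : (inv g1).2 = g1.2 := h5 rfl
      simp [inv] at this
    · rw [e1, e2, hg12] at h5
      have : g1.2 = (inv g1).2 := h5 rfl
      simp [inv] at this
    · rw [e1, e2, hg12] at h4
      have h6 : ((inv g1).1, !(inv g1).2) = g1 := by simp [inv]
      rw [h6, ← hg12] at h4
      exact hv12 h4
  obtain ⟨z, hz1, hz2, hz3, hz4⟩ := hno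
  obtain ⟨k, hk⟩ := sw_path G (G.lab z.1, z.2) s side L x x hp (fun d hd => by
    obtain ⟨a1, a2⟩ := havoid d hd
    exact ⟨fun _ => hside d.1 d.2 a1 a2, fun _ => hside d.1 (!d.2) a1 a2⟩)
  refine ⟨(G.lab z.1, z.2), s, side x, k, ⟨(G.lab g1.1, g1.2), (G.lab g2.1, g2.2), ?_, ?_, ?_⟩, hk⟩
  · intro h1
    have h2 := hinj g1.1 z.1 hg1 hg2 hz1 hz2 (congrArg Prod.fst h1)
    exact hz3 (Prod.ext h2 (Prod.mk.inj h1).2).symm
  · intro h1
    have h2 := hinj g2.1 z.1 hg1' hg2' hz1 hz2 (congrArg Prod.fst h1)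
    exact hz4 (Prod.ext h2 (Prod.mk.inj h1).2).symm
  · rw [← hside g1.1 g1.2 hg1 hg2, ← hside g2.1 g2.2 hg1' hg2']
    show decide (G.org g1 = _) ≠ decide (G.org g2 = _)
    rw [hg3, hg3']
    simp [D.hv]

end LF76

open LF76

theorem lfCore (h1 : LFGenStatement) : LFCoreStatement := by
  classical
  intro n
  have main : ∀ (N : ℕ) (G : LGraph (Fin n)) (o : G.V), Fintype.card G.V = N → G.Con o →
      G.Surj o → Fintype.card G.E + 1 = Fintype.card G.V + n → 2 ≤ Fintype.card G.V →
      (∀ u, ∃ d d' : G.E × Bool, d ≠ d' ∧ G.org d = u ∧ G.org d' = u) →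
      ∀ (u : G.V) (L : List (G.E × Bool)), IsPath G.src G.tgt u L u → L ≠ [] →
        IsCyclicallyReduced (readW G.lab L) →
        ∃ z s a k, NontrivSplit z s ∧ SW z s a (readW G.lab L) a k := by
    intro N
    induction N using Nat.strong_induction_on with
    | _ N ih =>
      intro G o hN hc hs hcard h2 hd u L hL hne hcr
      by_cases h3 : Fintype.card G.V = 2
      · exact core_two h1 G o hc hs hcard h3 hd u L hL
      obtain ⟨D⟩ := exists_foldData G o hc hs hcard h2
      have cV := D.card_V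
      have cE := D.card_E
      have hEpos : 0 < Fintype.card G.E := Fintype.card_pos_iff.2 ⟨D.e⟩
      by_cases hA : ∀ y, ∃ d d' : D.G'.E × Bool, d ≠ d' ∧ D.G'.org d = y ∧ D.G'.org d' = y
      · obtain ⟨hc', hs'⟩ := D.con_surj hc hs (D.mV o)
        obtain ⟨L', hL', hr⟩ := transport_word G D.G' D.mV (fun x => some (D.mE x)) (by
          intro e f hf
          have hf : D.mE e = f := Option.some_injective _ hf
          subst hf
          exact D.mE_spec e) L u u hL (by intro d _; simp)
        have hne' : L' ≠ [] := by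
          rintro rfl
          apply hne
          have : readW G.lab L = [] := hr.symm
          simpa [readW] using this
        have := ih (Fintype.card D.G'.V) (by omega) D.G' (D.mV o) rfl hc' hs' (by omega)
          (by omega) hA (D.mV u) L' hL' hne' (by rw [hr]; exact hcr)
        rw [hr] at this
        exact this
      · push Not at hA
        obtain ⟨y, hy⟩ := hA
        have hbad : D.Bad := D.bad_vertex hd y (by
          rintro ⟨d, d', e1, e2, e3⟩
          exact hy d d' e1 e2 e3)
        have pV := FoldData.pruned_card_V hbad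
        have pE := FoldData.pruned_card_E hbad
        by_cases h4 : 2 ≤ Fintype.card (FoldData.pruned hbad).V
        · obtain ⟨hc', hs'⟩ := FoldData.pruned_con_surj hbad hc hs (FoldData.pV hbad o)
          obtain ⟨L', hL', hr⟩ := transport_word G (FoldData.pruned hbad) (FoldData.pV hbad)
            (FoldData.pE hbad) (by
              intro e f hf
              obtain ⟨-, -, h3⟩ := FoldData.pE_some hbad e f hf
              refine ⟨?_, ?_, ?_⟩
              · show _ = FoldData.pV hbad (G.src f.1)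
                rw [h3]
              · show _ = FoldData.pV hbad (G.tgt f.1)
                rw [h3]
              · show _ = G.lab f.1
                rw [h3]) L u u hL (by
              intro d hd
              obtain ⟨a1, a2⟩ := hbad.avoid u L hL hcr d hd
              exact FoldData.pE_ne_none hbad d.1 a1 a2)
          have hne' : L' ≠ [] := by
            rintro rfl
            apply hne
            have : readW G.lab L = [] := hr.symm
            simpa [readW] using this
          have := ih (Fintype.card (FoldData.pruned hbad).V) (by omega) (FoldData.pruned hbad)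
            (FoldData.pV hbad o) rfl hc' hs' (by omega) h4 (FoldData.pruned_germs hbad hd)
            (FoldData.pV hbad u) L' hL' hne' (by rw [hr]; exact hcr)
          rw [hr] at this
          exact this
        · exact core_last G D hbad o hc hs hcard (by omega) hd u L hL hne hcr
  intro G o hc hs hcard h2 hd u L hL hne hcr
  exact main _ G o rfl hc hs hcard h2 hd u L hL hne hcr

end Pool.Agent.Helper35_WH
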