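import Pool.Agent.Helper35_WH.Stmt1

/-!
# Module LFGEN (helper76): the general last fold lemma
-/

namespace Pool.Agent.Helper35_WH

open FreeGroup

namespace LF76

/-! ### Paths -/

theorem isPath_append {V E : Type} {s t : E → V} : ∀ {L L' : List (E × Bool)} {u v w : V},
    IsPath s t u L v → IsPath s t v L' w → IsPath s t u (L ++ L') w
  | [], L', u, v, w, h1, h2 => by
      have h1 : u = v := h1
      subst h1
      exact h2
  | (e, b) :: L, L', u, v, w, h1, h2 => ⟨h1.1, isPath_append h1.2 h2⟩

theorem isPath_single {V E : Type} {s t : E → V} (e : E) (b : Bool) :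
    IsPath s t (if b then s e else t e) [(e, b)] (if b then t e else s e) := ⟨rfl, rfl⟩

/-- the reversed path -/
theorem isPath_rev {V E : Type} {s t : E → V} : ∀ {L : List (E × Bool)} {u v : V},
    IsPath s t u L v → IsPath s t v (invRev L) u
  | [], u, v, h => by
      have h : u = v := h
      subst h
      exact rfl
  | (e, b) :: L, u, v, h => by
      have h1 := isPath_rev h.2
      have h2 : IsPath s t (if b then t e else s e) [(e, !b)] u := by
        refine ⟨?_, ?_⟩
        · cases b <;> rfl
        · show (if (!b) = true then t e else s e) = u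
          rw [h.1]
          cases b <;> rfl
      have h3 := isPath_append h1 h2
      have e1 : invRev ((e, b) :: L) = invRev L ++ [(e, !b)] := by
        simp [invRev]
      rw [e1]
      exact h3

theorem readW_append {E α : Type} (l : E → α) (L L' : List (E × Bool)) :
    readW l (L ++ L') = readW l L ++ readW l L' := by simp [readW]

theorem readW_invRev {E α : Type} (l : E → α) (L : List (E × Bool)) :
    readW l (invRev L) = invRev (readW l L) := by
  simp [readW, invRev, Function.comp_def]

theorem mk_readW_append {E α : Type} (l : E → α) (L L' : List (E × Bool)) :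
    FreeGroup.mk (readW l (L ++ L')) = FreeGroup.mk (readW l L) * FreeGroup.mk (readW l L') := by
  rw [readW_append, ← FreeGroup.mul_mk]

theorem mk_readW_inv {E α : Type} (l : E → α) (L : List (E × Bool)) :
    FreeGroup.mk (readW l (invRev L)) = (FreeGroup.mk (readW l L))⁻¹ := by
  rw [readW_invRev, FreeGroup.inv_mk]

/-- strong connectivity -/
theorem con_all {α : Type} {G : LGraph α} {o : G.V} (hc : G.Con o) (x y : G.V) :
    ∃ L, IsPath G.src G.tgt x L y := by
  obtain ⟨L, hL⟩ := hc x
  obtain ⟨L', hL'⟩ := hc y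
  exact ⟨_, isPath_append (isPath_rev hL) hL'⟩

theorem surj_all {α : Type} {G : LGraph α} {o : G.V} (hc : G.Con o) (hs : G.Surj o) (x : G.V) :
    G.Surj x := by
  intro g
  obtain ⟨L, hL⟩ := hc x
  obtain ⟨L', hL', h⟩ := hs (FreeGroup.mk (readW G.lab L) * g * (FreeGroup.mk (readW G.lab L))⁻¹)
  refine ⟨invRev L ++ (L' ++ L), isPath_append (isPath_rev hL) (isPath_append hL' hL), ?_⟩
  rw [mk_readW_append, mk_readW_append, mk_readW_inv, h]
  group

/-- the value of a gauge-trivial homomorphism along a path -/
theorem path_value {α M : Type} [Group M] (G : LGraph α) (φ : FreeGroup α →* M) (q : G.V → M)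
    (h : ∀ e, φ (FreeGroup.of (G.lab e)) = q (G.src e) * (q (G.tgt e))⁻¹) :
    ∀ (L : List (G.E × Bool)) (x y : G.V), IsPath G.src G.tgt x L y →
      φ (FreeGroup.mk (readW G.lab L)) = q x * (q y)⁻¹
  | [], x, y, hp => by
      have hp : x = y := hp
      subst hp
      have : readW G.lab ([] : List (G.E × Bool)) = [] := rfl
      rw [this, ← FreeGroup.one_eq_mk, _root_.map_one]
      simp
  | (e, b) :: L, x, y, hp => by
      have ih := path_value G φ q h L _ y hp.2
      have e1 : FreeGroup.mk (readW G.lab ((e, b) :: L)) =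
          FreeGroup.mk [(G.lab e, b)] * FreeGroup.mk (readW G.lab L) := by
        rw [FreeGroup.mul_mk]
        rfl
      rw [e1, _root_.map_mul, ih, hp.1]
      have h' := h e
      cases b with
      | true =>
        have e2 : FreeGroup.mk [(G.lab e, true)] = FreeGroup.of (G.lab e) := rfl
        rw [e2, h']
        simp
      | false =>
        have e2 : FreeGroup.mk [(G.lab e, false)] = (FreeGroup.of (G.lab e))⁻¹ := by
          rw [FreeGroup.of, FreeGroup.inv_mk]
          rfl
        rw [e2, _root_.map_inv, h']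
        simp

/-- the general transport lemma: `G''` is obtained from `G` by identifications and contractions -/
theorem transport {α : Type} (G G' : LGraph α) (mV : G.V → G'.V) (mE : G.E → Option G'.E)
    (h : G.V → FreeGroup α)
    (h1 : ∀ e f, mE e = some f → mV (G.src e) = G'.src f ∧ mV (G.tgt e) = G'.tgt f ∧
      FreeGroup.of (G.lab e) = h (G.src e) * FreeGroup.of (G'.lab f) * (h (G.tgt e))⁻¹)
    (h2 : ∀ e, mE e = none → mV (G.src e) = mV (G.tgt e) ∧
      FreeGroup.of (G.lab e) = h (G.src e) * (h (G.tgt e))⁻¹) :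
    ∀ (L : List (G.E × Bool)) (x y : G.V), IsPath G.src G.tgt x L y →
      ∃ L', IsPath G'.src G'.tgt (mV x) L' (mV y) ∧
        FreeGroup.mk (readW G.lab L) = h x * FreeGroup.mk (readW G'.lab L') * (h y)⁻¹
  | [], x, y, hp => by
      have hp : x = y := hp
      subst hp
      refine ⟨[], rfl, ?_⟩
      have : readW G.lab ([] : List (G.E × Bool)) = [] := rfl
      have h' : readW G'.lab ([] : List (G'.E × Bool)) = [] := rfl
      rw [this, h', ← FreeGroup.one_eq_mk]
      simp
  | (e, b) :: L, x, y, hp => by
      obtain ⟨L', hL', hr⟩ := transport G G' mV mE h h1 h2 L _ y hp.2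
      have e1 : FreeGroup.mk (readW G.lab ((e, b) :: L)) =
          FreeGroup.mk [(G.lab e, b)] * FreeGroup.mk (readW G.lab L) := by
        rw [FreeGroup.mul_mk]
        rfl
      have e3 : FreeGroup.mk [(G.lab e, false)] = (FreeGroup.of (G.lab e))⁻¹ := by
        rw [FreeGroup.of, FreeGroup.inv_mk]
        rfl
      have e4 : FreeGroup.mk [(G.lab e, true)] = FreeGroup.of (G.lab e) := rfl
      rw [e1, hr]
      cases hm : mE e with
      | some f =>
        obtain ⟨a1, a2, a3⟩ := h1 e f hm
        have e5 : FreeGroup.mk (readW G'.lab ((f, b) :: L')) =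
            FreeGroup.mk [(G'.lab f, b)] * FreeGroup.mk (readW G'.lab L') := by
          rw [FreeGroup.mul_mk]
          rfl
        have e6 : FreeGroup.mk [(G'.lab f, false)] = (FreeGroup.of (G'.lab f))⁻¹ := by
          rw [FreeGroup.of, FreeGroup.inv_mk]
          rfl
        have e7 : FreeGroup.mk [(G'.lab f, true)] = FreeGroup.of (G'.lab f) := rfl
        refine ⟨(f, b) :: L', ⟨?_, ?_⟩, ?_⟩
        · rw [hp.1]
          cases b
          · exact a2
          · exact a1
        · cases b
          · show IsPath G'.src G'.tgt (G'.src f) L' (mV y)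
            rw [← a1]
            exact hL'
          · show IsPath G'.src G'.tgt (G'.tgt f) L' (mV y)
            rw [← a2]
            exact hL'
        · rw [e5, hp.1]
          cases b with
          | true =>
            rw [e4, e7, a3]
            simp only [if_true]
            group
          | false =>
            rw [e3, e6, a3]
            simp only [Bool.false_eq_true, if_false]
            group
      | none =>
        obtain ⟨a1, a3⟩ := h2 e hm
        refine ⟨L', ?_, ?_⟩
        · rw [hp.1]
          cases b with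
          | true =>
            simp only [if_true] at hL' ⊢
            rw [a1]; exact hL'
          | false =>
            simp only [Bool.false_eq_true, if_false] at hL' ⊢
            rw [← a1]; exact hL'
        · rw [hp.1]
          cases b with
          | true =>
            rw [e4, a3]
            simp only [if_true]
            group
          | false =>
            rw [e3, a3]
            simp only [Bool.false_eq_true, if_false]
            group

/-- paths which use only edges which are kept -/
theorem transport_word {α : Type} (G G' : LGraph α) (mV : G.V → G'.V) (mE : G.E → Option G'.E)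
    (h1 : ∀ e f, mE e = some f → mV (G.src e) = G'.src f ∧ mV (G.tgt e) = G'.tgt f ∧
      G.lab e = G'.lab f) :
    ∀ (L : List (G.E × Bool)) (x y : G.V), IsPath G.src G.tgt x L y →
      (∀ d ∈ L, mE d.1 ≠ none) →
      ∃ L', IsPath G'.src G'.tgt (mV x) L' (mV y) ∧ readW G'.lab L' = readW G.lab L
  | [], x, y, hp, _ => by
      have hp : x = y := hp
      subst hp
      exact ⟨[], rfl, rfl⟩
  | (e, b) :: L, x, y, hp, hk => by
      obtain ⟨L', hL', hr⟩ := transport_word G G' mV mE h1 L _ y hp.2
        (fun d hd => hk d (List.mem_cons_of_mem _ hd))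
      obtain ⟨f, hf⟩ := Option.ne_none_iff_exists'.1 (hk (e, b) List.mem_cons_self)
      obtain ⟨a1, a2, a3⟩ := h1 e f hf
      refine ⟨(f, b) :: L', ⟨?_, ?_⟩, ?_⟩
      · rw [hp.1]
        cases b
        · exact a2
        · exact a1
      · cases b
        · show IsPath G'.src G'.tgt (G'.src f) L' (mV y)
          rw [← a1]
          exact hL'
        · show IsPath G'.src G'.tgt (G'.tgt f) L' (mV y)
          rw [← a2]
          exact hL'
      · show (G'.lab f, b) :: readW G'.lab L' = (G.lab e, b) :: readW G.lab L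
        rw [hr, a3]

theorem transport_con_surj {α : Type} (G G' : LGraph α) (mV : G.V → G'.V)
    (mE : G.E → Option G'.E) (h : G.V → FreeGroup α)
    (h1 : ∀ e f, mE e = some f → mV (G.src e) = G'.src f ∧ mV (G.tgt e) = G'.tgt f ∧
      FreeGroup.of (G.lab e) = h (G.src e) * FreeGroup.of (G'.lab f) * (h (G.tgt e))⁻¹)
    (h2 : ∀ e, mE e = none → mV (G.src e) = mV (G.tgt e) ∧
      FreeGroup.of (G.lab e) = h (G.src e) * (h (G.tgt e))⁻¹)
    (hm : ∀ y, ∃ x, mV x = y ∧ h x = 1) {o : G.V} (hc : G.Con o) (hs : G.Surj o) (o' : G'.V) :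
    G'.Con o' ∧ G'.Surj o' := by
  obtain ⟨x, hx, hx1⟩ := hm o'
  constructor
  · intro y
    obtain ⟨z, hz, -⟩ := hm y
    obtain ⟨L, hL⟩ := con_all hc x z
    obtain ⟨L', hL', -⟩ := transport G G' mV mE h h1 h2 L x z hL
    exact ⟨L', by rw [← hx, ← hz]; exact hL'⟩
  · intro g
    obtain ⟨L, hL, hg⟩ := surj_all hc hs x g
    obtain ⟨L', hL', hr⟩ := transport G G' mV mE h h1 h2 L x x hL
    refine ⟨L', by rw [← hx]; exact hL', ?_⟩
    rw [hx1] at hr
    rw [← hg, hr]
    simp

/-! ### (a) Two edges which can be folded -/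

theorem exists_fold {n : ℕ} (G : LGraph (Fin n)) (o : G.V) (hc : G.Con o) (hs : G.Surj o)
    (h2 : 2 ≤ Fintype.card G.V) :
    ∃ (e e' : G.E) (b : Bool), e ≠ e' ∧ G.lab e = G.lab e' ∧ G.org (e, b) = G.org (e', b) := by
  classical
  by_contra hcon
  push Not at hcon
  have hsrc : ∀ e e', G.lab e = G.lab e' → G.src e = G.src e' → e = e' := by
    intro e e' h1 h2
    by_contra h3
    exact hcon e e' true h3 h1 h2
  have htgt : ∀ e e', G.lab e = G.lab e' → G.tgt e = G.tgt e' → e = e' := by
    intro e e' h1 h2
    by_contra h3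
    exact hcon e e' false h3 h1 h2
  let p : Fin n → G.V → Prop := fun i x => ∃ e, G.lab e = i ∧ G.tgt e = x
  let q : Fin n → G.V → Prop := fun i x => ∃ e, G.lab e = i ∧ G.src e = x
  have eqv : ∀ i, ∃ f : {x // p i x} ≃ {x // q i x}, ∀ e (he : G.lab e = i),
      f ⟨G.tgt e, e, he, rfl⟩ = ⟨G.src e, e, he, rfl⟩ := by
    intro i
    let f1 : {e : G.E // G.lab e = i} ≃ {x // p i x} := Equiv.ofBijective
      (fun e => ⟨G.tgt e.1, e.1, e.2, rfl⟩) ⟨by
        rintro ⟨e, he⟩ ⟨e', he'⟩ h
        exact Subtype.ext (htgt e e' (he.trans he'.symm) (congrArg Subtype.val h)), by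
        rintro ⟨x, e, he, hx⟩
        exact ⟨⟨e, he⟩, Subtype.ext hx⟩⟩
    let f2 : {e : G.E // G.lab e = i} ≃ {x // q i x} := Equiv.ofBijective
      (fun e => ⟨G.src e.1, e.1, e.2, rfl⟩) ⟨by
        rintro ⟨e, he⟩ ⟨e', he'⟩ h
        exact Subtype.ext (hsrc e e' (he.trans he'.symm) (congrArg Subtype.val h)), by
        rintro ⟨x, e, he, hx⟩
        exact ⟨⟨e, he⟩, Subtype.ext hx⟩⟩
    refine ⟨f1.symm.trans f2, fun e he => ?_⟩
    have : f1.symm ⟨G.tgt e, e, he, rfl⟩ = ⟨e, he⟩ := by
      rw [Equiv.symm_apply_eq]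
      rfl
    rw [Equiv.trans_apply, this]
    rfl
  choose f hf using eqv
  let σ : Fin n → Equiv.Perm G.V := fun i => (f i).extendSubtype
  have hσ : ∀ e, σ (G.lab e) (G.tgt e) = G.src e := by
    intro e
    have := (f (G.lab e)).extendSubtype_apply_of_mem (G.tgt e) ⟨e, rfl, rfl⟩
    show (f (G.lab e)).extendSubtype (G.tgt e) = G.src e
    rw [this, hf _ e rfl]
  have hpath : ∀ (L : List (G.E × Bool)) (x y : G.V), IsPath G.src G.tgt x L y →
      (FreeGroup.lift σ (FreeGroup.mk (readW G.lab L))) y = x := by
    intro L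
    induction L with
    | nil =>
      intro x y hp
      have hp : x = y := hp
      subst hp
      have : readW G.lab ([] : List (G.E × Bool)) = [] := rfl
      rw [this, ← FreeGroup.one_eq_mk, _root_.map_one]
      rfl
    | cons d L ih =>
      obtain ⟨e, b⟩ := d
      intro x y hp
      have h1 := ih _ y hp.2
      have e1 : FreeGroup.mk (readW G.lab ((e, b) :: L)) =
          FreeGroup.mk [(G.lab e, b)] * FreeGroup.mk (readW G.lab L) := by
        rw [FreeGroup.mul_mk]
        rfl
      rw [e1, _root_.map_mul, Equiv.Perm.mul_apply, h1, hp.1]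
      cases b with
      | true =>
        have e2 : FreeGroup.mk [(G.lab e, true)] = FreeGroup.of (G.lab e) := rfl
        rw [e2, FreeGroup.lift_apply_of]
        simpa using hσ e
      | false =>
        have e2 : FreeGroup.mk [(G.lab e, false)] = (FreeGroup.of (G.lab e))⁻¹ := by
          rw [FreeGroup.of, FreeGroup.inv_mk]
          rfl
        rw [e2, _root_.map_inv, FreeGroup.lift_apply_of]
        simp only [Bool.false_eq_true, if_false]
        rw [Equiv.Perm.inv_eq_iff_eq]
        exact (hσ e).symm
  have hone : ∀ u, u = o := by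
    intro u
    obtain ⟨P, hP⟩ := hc u
    obtain ⟨L, hL, hg⟩ := hs (FreeGroup.mk (readW G.lab P))
    have h3 := hpath P o u hP
    have h4 := hpath L o o hL
    rw [hg] at h4
    exact (Equiv.injective _) (h3.trans h4.symm)
  have : Fintype.card G.V ≤ 1 := Fintype.card_le_one_iff.2 fun a b => (hone a).trans (hone b).symm
  omega

/-! ### (b) Rank -/

theorem path_zero {n : ℕ} (G : LGraph (Fin n)) (h : Fin n → ZMod 2) (p : G.V → ZMod 2)
    (hh : ∀ e, h (G.lab e) + p (G.src e) + p (G.tgt e) = 0) (L : List (G.E × Bool)) (x y : G.V)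
    (hp : IsPath G.src G.tgt x L y) :
    FreeGroup.lift (fun i => Multiplicative.ofAdd (h i)) (FreeGroup.mk (readW G.lab L)) =
      Multiplicative.ofAdd (p x) * (Multiplicative.ofAdd (p y))⁻¹ := by
  refine path_value G _ (fun v => Multiplicative.ofAdd (p v)) ?_ L x y hp
  intro e
  rw [FreeGroup.lift_apply_of]
  have h1 := hh e
  have h2 : h (G.lab e) = p (G.src e) - p (G.tgt e) := by
    have h3 : ∀ a b c : ZMod 2, a + b + c = 0 → a = b - c := by decide
    exact h3 _ _ _ h1
  rw [h2, ofAdd_sub, div_eq_mul_inv]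

theorem rank_parallel {n : ℕ} (G : LGraph (Fin n)) (o : G.V) (hc : G.Con o) (hs : G.Surj o)
    (e e' : G.E) (hne : e ≠ e') (hl : G.lab e = G.lab e') (h1 : G.src e = G.src e')
    (h2 : G.tgt e = G.tgt e') : n + Fintype.card G.V ≤ Fintype.card G.E := by
  classical
  let f : ((Fin n → ZMod 2) × (G.V → ZMod 2)) →ₗ[ZMod 2]
      (({x : G.E // x ≠ e'} → ZMod 2) × ZMod 2) :=
    { toFun := fun x => (fun a => x.1 (G.lab a.1) + x.2 (G.src a.1) + x.2 (G.tgt a.1), x.2 o)
      map_add' := by
        intro x y
        refine Prod.ext ?_ rfl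
        funext a
        simp only [Prod.fst_add, Prod.snd_add, Pi.add_apply]
        ring
      map_smul' := by
        intro c x
        refine Prod.ext ?_ rfl
        funext a
        simp only [Prod.smul_fst, Prod.smul_snd, Pi.smul_apply, smul_eq_mul, RingHom.id_apply]
        ring }
  have hinj : Function.Injective f := by
    rw [injective_iff_map_eq_zero]
    rintro ⟨h, p⟩ h0
    have h3 : ∀ a : {x : G.E // x ≠ e'}, h (G.lab a.1) + p (G.src a.1) + p (G.tgt a.1) = 0 :=
      fun a => congrFun (congrArg Prod.fst h0) a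
    have h4 : p o = 0 := congrArg Prod.snd h0
    have h5 : ∀ a : G.E, h (G.lab a) + p (G.src a) + p (G.tgt a) = 0 := by
      intro a
      by_cases ha : a = e'
      · subst ha
        rw [← hl, ← h1, ← h2]
        exact h3 ⟨e, hne⟩
      · exact h3 ⟨a, ha⟩
    have h6 : h = 0 := by
      funext i
      obtain ⟨L, hL, hg⟩ := hs (FreeGroup.of i)
      have := path_zero G h p h5 L o o hL
      rw [hg, FreeGroup.lift_apply_of] at this
      simpa using this
    have h7 : p = 0 := by
      funext v
      obtain ⟨L, hL⟩ := hc v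
      have := path_zero G h p h5 L o v hL
      have h8 : FreeGroup.lift (fun i => Multiplicative.ofAdd (h i)) = 1 := by
        ext i
        rw [h6]
        simp
      rw [h8, h4] at this
      simpa using this
    rw [h6, h7]
    rfl
  have h3 := LinearMap.finrank_le_finrank_of_injective hinj
  rw [Module.finrank_prod, Module.finrank_prod, Module.finrank_fintype_fun_eq_card,
    Module.finrank_fintype_fun_eq_card, Module.finrank_fintype_fun_eq_card, Module.finrank_self,
    Fintype.card_fin] at h3
  have h4 : Fintype.card {x : G.E // x ≠ e'} = Fintype.card G.E - 1 := by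
    simp
  have h5 : 0 < Fintype.card G.E := Fintype.card_pos_iff.2 ⟨e⟩
  rw [h4] at h3
  omega

/-- every letter occurs -/
theorem lab_surjective {n : ℕ} (G : LGraph (Fin n)) (o : G.V) (hs : G.Surj o) :
    Function.Surjective G.lab := by
  classical
  intro i
  by_contra hi
  push Not at hi
  obtain ⟨L, hL, hg⟩ := hs (FreeGroup.of i)
  have := path_zero G (fun j => if j = i then 1 else 0) (fun _ => 0) (by
    intro e
    simp [hi e]) L o o hL
  rw [hg, FreeGroup.lift_apply_of] at this
  simp only [if_true] at this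
  have h2 := congrArg Multiplicative.toAdd this
  simp at h2

/-! ### (c) The folded graph -/

/-- identify `v'` with `v` and remove the edge `e'` -/
def foldG {α : Type} (G : LGraph α) (v v' : G.V) (hv : v ≠ v') (e' : G.E) : LGraph α where
  V := {x : G.V // x ≠ v'}
  E := {x : G.E // x ≠ e'}
  src a := if h : G.src a.1 = v' then ⟨v, hv⟩ else ⟨G.src a.1, h⟩
  tgt a := if h : G.tgt a.1 = v' then ⟨v, hv⟩ else ⟨G.tgt a.1, h⟩
  lab a := G.lab a.1

/-- the map on vertices -/
def foldV {α : Type} (G : LGraph α) (v v' : G.V) (hv : v ≠ v') (x : G.V) : {x : G.V // x ≠ v'} :=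
  if h : x = v' then ⟨v, hv⟩ else ⟨x, h⟩

theorem foldV_v' {α : Type} (G : LGraph α) (v v' : G.V) (hv : v ≠ v') :
    foldV G v v' hv v' = ⟨v, hv⟩ := by simp [foldV]

theorem foldV_of_ne {α : Type} (G : LGraph α) (v v' : G.V) (hv : v ≠ v') (x : G.V) (h : x ≠ v') :
    foldV G v v' hv x = ⟨x, h⟩ := by simp [foldV, h]

/-- the map on edges -/
def foldE {α : Type} (G : LGraph α) (e e' : G.E) (he : e ≠ e') (x : G.E) : {x : G.E // x ≠ e'} :=
  if h : x = e' then ⟨e, he⟩ else ⟨x, h⟩

theorem foldE_of_ne {α : Type} (G : LGraph α) (e e' : G.E) (he : e ≠ e') (x : G.E) (h : x ≠ e') :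
    foldE G e e' he x = ⟨x, h⟩ := by simp [foldE, h]

/-- the data of a fold: `e, e'` have the same label and origin (direction `b`) and different
ends `v, v'` -/
structure FoldData {α : Type} (G : LGraph α) where
  e : G.E
  e' : G.E
  b : Bool
  he : e ≠ e'
  hl : G.lab e = G.lab e'
  ho : G.org (e, b) = G.org (e', b)
  hv : G.org (e, !b) ≠ G.org (e', !b)

namespace FoldData

variable {α : Type} {G : LGraph α} (D : FoldData G)

/-- the folded graph -/
def G' : LGraph α := foldG G (G.org (D.e, !D.b)) (G.org (D.e', !D.b)) D.hv D.e'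

/-- the map on vertices -/
def mV (x : G.V) : D.G'.V := foldV G (G.org (D.e, !D.b)) (G.org (D.e', !D.b)) D.hv x

/-- the map on edges -/
def mE (x : G.E) : D.G'.E := foldE G D.e D.e' D.he x

theorem mV_eq : D.mV (G.org (D.e', !D.b)) = D.mV (G.org (D.e, !D.b)) := by
  unfold mV
  rw [foldV_v', foldV_of_ne _ _ _ _ _ D.hv]

theorem mV_ends : D.mV (G.src D.e') = D.mV (G.src D.e) ∧ D.mV (G.tgt D.e') = D.mV (G.tgt D.e) := by
  have h1 := D.ho
  have h2 := D.mV_eq
  cases hb : D.b with
  | true =>
    rw [hb] at h1 h2
    simp only [LGraph.org, Bool.not_true, Bool.false_eq_true, if_true, if_false] at h1 h2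
    exact ⟨by rw [h1], h2⟩
  | false =>
    rw [hb] at h1 h2
    simp only [LGraph.org, Bool.not_false, Bool.false_eq_true, if_true, if_false] at h1 h2
    exact ⟨h2, by rw [h1]⟩

theorem mE_spec (x : G.E) : D.mV (G.src x) = D.G'.src (D.mE x) ∧
    D.mV (G.tgt x) = D.G'.tgt (D.mE x) ∧ G.lab x = D.G'.lab (D.mE x) := by
  by_cases h : x = D.e'
  · subst h
    have h1 : D.mE D.e' = ⟨D.e, D.he⟩ := dif_pos rfl
    rw [h1, D.mV_ends.1, D.mV_ends.2]
    exact ⟨rfl, rfl, D.hl.symm⟩
  · have h1 : D.mE x = ⟨x, h⟩ := dif_neg h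
    rw [h1]
    exact ⟨rfl, rfl, rfl⟩

theorem mV_surj (y : D.G'.V) : ∃ x, D.mV x = y := by
  obtain ⟨x, hx⟩ := y
  exact ⟨x, foldV_of_ne _ _ _ _ _ hx⟩

theorem org_mE (d : G.E × Bool) : D.mV (G.org d) = D.G'.org (D.mE d.1, d.2) := by
  obtain ⟨x, b⟩ := d
  obtain ⟨h1, h2, -⟩ := D.mE_spec x
  cases b
  · exact h2
  · exact h1

theorem con_surj {o : G.V} (hc : G.Con o) (hs : G.Surj o) (o' : D.G'.V) :
    D.G'.Con o' ∧ D.G'.Surj o' := by
  refine transport_con_surj G D.G' D.mV (fun x => some (D.mE x)) (fun _ => 1) ?_ ?_ ?_ hc hs o'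
  · intro e f hf
    have hf : D.mE e = f := Option.some_injective _ hf
    subst hf
    obtain ⟨h1, h2, h3⟩ := D.mE_spec e
    exact ⟨h1, h2, by rw [h3]; simp⟩
  · intro e h
    exact absurd h (by simp)
  · intro y
    obtain ⟨x, hx⟩ := D.mV_surj y
    exact ⟨x, hx, rfl⟩

theorem card_V : Fintype.card D.G'.V = Fintype.card G.V - 1 := by
  show Fintype.card {x : G.V // x ≠ _} = _
  simp

theorem card_E : Fintype.card D.G'.E = Fintype.card G.E - 1 := by
  show Fintype.card {x : G.E // x ≠ _} = _
  simp

end FoldData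

theorem exists_foldData {n : ℕ} (G : LGraph (Fin n)) (o : G.V) (hc : G.Con o) (hs : G.Surj o)
    (hcard : Fintype.card G.E + 1 = Fintype.card G.V + n) (h2 : 2 ≤ Fintype.card G.V) :
    Nonempty (FoldData G) := by
  obtain ⟨e, e', b, he, hl, ho⟩ := exists_fold G o hc hs h2
  by_cases hv : G.org (e, !b) = G.org (e', !b)
  · exfalso
    have h3 : n + Fintype.card G.V ≤ Fintype.card G.E := by
      refine rank_parallel G o hc hs e e' he hl ?_ ?_
      · cases b
        · exact hv
        · exact ho
      · cases b
        · exact ho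
        · exact hv
    omega
  · exact ⟨⟨e, e', b, he, hl, ho, hv⟩⟩

end LF76

open LF76

theorem lfGen : LFGenStatement := by
  classical
  intro n
  have main : ∀ (N : ℕ) (G : LGraph (Fin n)) (o : G.V), Fintype.card G.V = N → G.Con o →
      G.Surj o → Fintype.card G.E + 1 = Fintype.card G.V + n → 2 ≤ Fintype.card G.V →
      ∃ (z : Lt n) (s : Lt n → Bool) (side : G.V → Bool),
        (∀ d : G.E × Bool, (G.lab d.1, d.2) ≠ z → side (G.org d) = s (G.lab d.1, d.2)) ∧
        ∀ b : Bool, ∃ d : G.E × Bool, (G.lab d.1, d.2) = z ∧ side (G.org d) = b := by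
    intro N
    induction N with
    | zero => intro G o h0 _ _ _ h2; omega
    | succ N ih =>
      intro G o hN hc hs hcard h2
      obtain ⟨D⟩ := exists_foldData G o hc hs hcard h2
      have cV := D.card_V
      have cE := D.card_E
      have hEpos : 0 < Fintype.card G.E := Fintype.card_pos_iff.2 ⟨D.e⟩
      obtain ⟨hc', hs'⟩ := D.con_surj hc hs (D.mV o)
      by_cases h3 : 2 ≤ Fintype.card D.G'.V
      · obtain ⟨z, s, side, h4, h5⟩ := ih D.G' (D.mV o) (by omega) hc' hs' (by omega) h3
        refine ⟨z, s, fun x => side (D.mV x), ?_, ?_⟩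
        · intro d hd
          have h6 := D.org_mE d
          have h7 := (D.mE_spec d.1).2.2
          show side (D.mV (G.org d)) = _
          rw [h6, h7]
          exact h4 (D.mE d.1, d.2) (by rw [← h7]; exact hd)
        · intro b
          obtain ⟨d, hd, hb⟩ := h5 b
          obtain ⟨⟨x, hx⟩, c⟩ := d
          refine ⟨(x, c), hd, ?_⟩
          have h6 := D.org_mE (x, c)
          have h7 : D.mE x = ⟨x, hx⟩ := foldE_of_ne _ _ _ _ _ hx
          show side (D.mV (G.org (x, c))) = b
          rw [h6]
          simp only [h7]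
          exact hb
      · have hE' : Fintype.card D.G'.E = n := by omega
        have hsurj := lab_surjective D.G' (D.mV o) hs'
        have hbij : Function.Bijective D.G'.lab :=
          (Fintype.bijective_iff_surjective_and_card _).2 ⟨hsurj, by rw [hE']; simp⟩
        choose f hf using hsurj
        have hfi : ∀ x : D.G'.E, f (D.G'.lab x) = x := fun x => hbij.1 (hf _)
        refine ⟨(G.lab D.e, !D.b), fun g => decide (G.org ((f g.1).1, g.2) = G.org (D.e', !D.b)),
          fun x => decide (x = G.org (D.e', !D.b)), ?_, ?_⟩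
        · rintro ⟨x, c⟩ hd
          by_cases hx : x = D.e'
          · subst hx
            have h4 : f (G.lab D.e') = ⟨D.e, D.he⟩ := by
              rw [← D.hl]
              exact hfi ⟨D.e, D.he⟩
            have h5 : c = D.b := by
              by_contra h6
              apply hd
              rw [← D.hl]
              have : c = !D.b := by
                cases c <;> cases hb : D.b <;> simp_all
              rw [this]
            subst h5
            show decide (G.org (D.e', D.b) = _) = decide (G.org ((f (G.lab D.e')).1, D.b) = _)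
            rw [h4]
            show decide (G.org (D.e', D.b) = _) = decide (G.org (D.e, D.b) = _)
            rw [D.ho]
          · have h4 : f (G.lab x) = ⟨x, hx⟩ := hfi ⟨x, hx⟩
            show decide (G.org (x, c) = _) = decide (G.org ((f (G.lab x)).1, c) = _)
            rw [h4]
        · intro b
          cases b with
          | false => exact ⟨(D.e, !D.b), rfl, by simpa using D.hv⟩
          | true => exact ⟨(D.e', !D.b), by rw [← D.hl], by simp⟩
  intro G o hc hs hcard h2
  exact main _ G o rfl hc hs hcard h2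

end Pool.Agent.Helper35_WH
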