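import Pool.Agent.Helper76_WH.SURFUNIV

/-!
# Module SPINE (helper76): spines of tame models exist
-/

namespace Pool.Agent.Helper35_WH

open FreeGroup

set_option allowUnsafeReducibility true
attribute [local reducible] Model.quad Model.GV Model.T Cx.T

namespace SU76

/-! ### Transport of `SpineUniv` -/

theorem spineUniv_transport {R R' : Rim} (AV : Chords R) (AV' : Chords R') {G A B I G' A' B' : Type}
    (o : G) (s₁ t₁ : A → G) (l₁ : A → I) (s₂ t₂ : B → G) (vt : R.E → G)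
    (bd : R.E → (A ⊕ B) × Bool) (s₁' t₁' : A' → G') (l₁' : A' → I) (s₂' t₂' : B' → G')
    (vt' : R'.E → G') (bd' : R'.E → (A' ⊕ B') × Bool)
    (i : R.E ≃ R'.E) (jG : G ≃ G') (jA : A ≃ A') (jB : B ≃ B')
    (hσ : ∀ x, R'.σ (i x) = i (R.σ x)) (hφ : ∀ x, R'.φ (i x) = i (R.φ x))
    (hA : ∀ x, AV'.A (i x) = i (AV.A x))
    (k1 : ∀ e, s₁' (jA e) = jG (s₁ e)) (k2 : ∀ e, t₁' (jA e) = jG (t₁ e))
    (k3 : ∀ e, l₁' (jA e) = l₁ e)
    (k4 : ∀ e, s₂' (jB e) = jG (s₂ e)) (k5 : ∀ e, t₂' (jB e) = jG (t₂ e))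
    (k6 : ∀ x, vt' (i x) = jG (vt x))
    (k7 : ∀ x, bd' (i x) = (Sum.map jA jB (bd x).1, (bd x).2))
    (h : SpineUniv R' AV' (jG o) s₁' t₁' l₁' s₂' t₂' vt' bd') :
    SpineUniv R AV o s₁ t₁ l₁ s₂ t₂ vt bd := by
  intro M _ μ₁ μ₂ a ha
  obtain ⟨ha1, ha2, ha3, r, ha4, ha5⟩ := ha
  have hb : ∀ x, bval bd' (μ₁ ∘ jA.symm) (μ₂ ∘ jB.symm) (i x) = bval bd μ₁ μ₂ x := by
    intro x
    unfold bval
    rw [k7]
    rcases hx : bd x with ⟨(y | y), b⟩ <;> simp
  have hb' : ∀ y, bval bd' (μ₁ ∘ jA.symm) (μ₂ ∘ jB.symm) y = bval bd μ₁ μ₂ (i.symm y) := by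
    intro y
    rw [← hb, Equiv.apply_symm_apply]
  have hA' : ∀ y, i.symm (AV'.A y) = AV.A (i.symm y) := by
    intro y
    rw [Equiv.symm_apply_eq, ← hA, Equiv.apply_symm_apply]
  have hφ' : ∀ y, i.symm (R'.φ y) = R.φ (i.symm y) := by
    intro y
    rw [Equiv.symm_apply_eq, ← hφ, Equiv.apply_symm_apply]
  have hσ' : ∀ y, i.symm (R'.σ y) = R.σ (i.symm y) := by
    intro y
    rw [Equiv.symm_apply_eq, ← hσ, Equiv.apply_symm_apply]
  have hne : ∀ y, AV'.A y = R'.φ y ↔ AV.A (i.symm y) = R.φ (i.symm y) := by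
    intro y
    rw [← hA', ← hφ']
    exact (Equiv.apply_eq_iff_eq i.symm).symm
  obtain ⟨x, ⟨x0, x1, x2, x3⟩, huniq⟩ := h M (μ₁ ∘ jA.symm) (μ₂ ∘ jB.symm) (a ∘ i.symm)
    ⟨fun y => by simp only [Function.comp]; rw [hA']; exact ha1 _,
     fun y hy => by rw [hb']; exact ha2 _ ((hne y).1 hy),
     fun y hy => by
      rw [hb', hb']
      simp only [Function.comp]
      rw [hA', hφ']
      exact ha3 _ (fun hh => hy ((hne y).2 hh)),
     r ∘ i.symm, fun y => by simp only [Function.comp]; rw [hσ']; exact ha4 _,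
     fun y => by simp only [Function.comp]; rw [hA']; exact ha5 _⟩
  refine ⟨(x.1, fun g => x.2 (jG g)), ⟨x0, ?_, ?_, ?_⟩, ?_⟩
  · intro e
    have := x1 (jA e)
    simp only [Function.comp, Equiv.symm_apply_apply] at this
    rw [k1, k2, k3] at this
    exact this
  · intro e
    have := x2 (jB e)
    simp only [Function.comp, Equiv.symm_apply_apply] at this
    rw [k4, k5] at this
    exact this
  · intro e he
    have := x3 (i e) (fun hh => he (by
      have := (hne (i e)).1 hh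
      rwa [Equiv.symm_apply_apply] at this))
    simp only [Function.comp, Equiv.symm_apply_apply] at this
    rw [hA, k6, k6] at this
    exact this
  · rintro y ⟨y0, y1, y2, y3⟩
    have := huniq (y.1, fun g => y.2 (jG.symm g)) ⟨by simpa using y0, by
      intro e
      have := y1 (jA.symm e)
      simp only [Function.comp]
      rw [this]
      have e1 : jG.symm (s₁' e) = s₁ (jA.symm e) := by
        rw [Equiv.symm_apply_eq, ← k1, Equiv.apply_symm_apply]
      have e2 : jG.symm (t₁' e) = t₁ (jA.symm e) := by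
        rw [Equiv.symm_apply_eq, ← k2, Equiv.apply_symm_apply]
      have e3 : l₁' e = l₁ (jA.symm e) := by
        rw [← k3, Equiv.apply_symm_apply]
      rw [e1, e2, e3], by
      intro e
      have := y2 (jB.symm e)
      simp only [Function.comp]
      rw [this]
      have e1 : jG.symm (s₂' e) = s₂ (jB.symm e) := by
        rw [Equiv.symm_apply_eq, ← k4, Equiv.apply_symm_apply]
      have e2 : jG.symm (t₂' e) = t₂ (jB.symm e) := by
        rw [Equiv.symm_apply_eq, ← k5, Equiv.apply_symm_apply]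
      rw [e1, e2], by
      intro e he
      have := y3 (i.symm e) (fun hh => he ((hne e).2 hh))
      simp only [Function.comp]
      rw [this]
      have e1 : ∀ z, jG.symm (vt' z) = vt (i.symm z) := by
        intro z
        rw [Equiv.symm_apply_eq, ← k6, Equiv.apply_symm_apply]
      rw [e1, e1, hA']⟩
    have h1 := congrArg Prod.fst this
    have h2 := congrArg Prod.snd this
    simp only at h1 h2
    refine Prod.ext h1 ?_
    funext g
    have h3 := congrFun h2 (jG g)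
    simp only [Equiv.symm_apply_apply] at h3
    exact h3

/-! ### Lifting paths -/

theorem isPath_pmap {V E G : Type} (s t : E → V) (P : E → Prop) (s' t' : {e // P e} → G)
    (f : G → V) (hf : Function.Injective f) (hs : ∀ e, f (s' e) = s e.1)
    (ht : ∀ e, f (t' e) = t e.1) : ∀ (L : List (E × Bool)) (h : ∀ x ∈ L, P x.1) (u w : G),
      IsPath s t (f u) L (f w) →
      IsPath s' t' u (L.pmap (fun x hx => ((⟨x.1, hx⟩, x.2) : {e // P e} × Bool)) h) w
  | [], _, u, w, hp => hf hp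
  | (e, b) :: L, h, u, w, hp => by
      have he : P e := h (e, b) List.mem_cons_self
      refine ⟨?_, ?_⟩
      · apply hf
        rw [hp.1]
        cases b
        · exact (ht ⟨e, he⟩).symm
        · exact (hs ⟨e, he⟩).symm
      · refine isPath_pmap s t P s' t' f hf hs ht L (fun x hx => h x (List.mem_cons_of_mem _ hx))
          _ w ?_
        have h2 := hp.2
        cases b
        · show IsPath s t (f (s' ⟨e, he⟩)) L (f w)
          rw [hs]
          exact h2
        · show IsPath s t (f (t' ⟨e, he⟩)) L (f w)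
          rw [ht]
          exact h2

theorem readW_pmap {E α : Type} (P : E → Prop) (l : E → α) : ∀ (L : List (E × Bool))
    (h : ∀ x ∈ L, P x.1),
      readW (fun e : {e // P e} => l e.1)
        (L.pmap (fun x hx => ((⟨x.1, hx⟩, x.2) : {e // P e} × Bool)) h) = readW l L
  | [], _ => rfl
  | (e, b) :: L, h => by
      have := readW_pmap P l L (fun x hx => h x (List.mem_cons_of_mem _ hx))
      exact congrArg ((l e, b) :: ·) this

/-! ### The data of a model with a rim -/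

variable {n : ℕ} {X Y : List (Lt n)} {m : Model n X Y}

theorem spf (q : QB m) (D : m.quad.RimData) (x : D.R.E) (hx : (D.e x).1.2 = false) :
    m.Sp₁ (m.C.hside ((D.e x).1.1.1, (D.e x).1.1.2.2)) := by
  have h1 : (if (D.e x).1.2 then m.quad.eta (D.e x).1.1 else m.quad.nu (D.e x).1.1) =
    (D.e x).1.1 := (D.e x).2
  rw [if_neg (by rw [hx]; decide)] at h1
  exact (q.q1 _).1 h1

theorem spt (q : QB m) (D : m.quad.RimData) (x : D.R.E) (hx : (D.e x).1.2 = true) :
    m.Sp₂ (m.C.vside ((D.e x).1.1.1, (D.e x).1.1.2.1)) := by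
  have h1 : (if (D.e x).1.2 then m.quad.eta (D.e x).1.1 else m.quad.nu (D.e x).1.1) =
    (D.e x).1.1 := (D.e x).2
  rw [if_pos hx] at h1
  exact (q.q2 _).1 h1

/-- the data of a model with a rim -/
noncomputable def mkDat (q : QB m) (D : m.quad.RimData) : Dat m where
  D := D
  vt x := ⟨m.C.vert (D.e x).1.1, by
    cases hx : (D.e x).1.2 with
    | false => exact Or.inl ⟨_, _, spf q D x hx, rfl⟩
    | true => exact Or.inr ⟨_, _, spt q D x hx, q.q7 _⟩⟩
  bd x := if h : (D.e x).1.2 = false then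
      (.inl ⟨m.C.hside ((D.e x).1.1.1, (D.e x).1.1.2.2), spf q D x h⟩, !(D.e x).1.1.2.1)
    else (.inr ⟨m.C.vside ((D.e x).1.1.1, (D.e x).1.1.2.1), spt q D x (by simpa using h)⟩,
      !(D.e x).1.1.2.2)
  hvt x := rfl
  hbf x hx := by
    rw [dif_pos hx]
    rfl
  hbt x hx := by
    rw [dif_neg (by rw [hx]; decide)]
    rfl
  s₁ e := ⟨m.C.s₁ e.1, Or.inl ⟨e.1, true, e.2, rfl⟩⟩
  t₁ e := ⟨m.C.t₁ e.1, Or.inl ⟨e.1, false, e.2, rfl⟩⟩
  s₂ e := ⟨m.C.s₂ e.1, Or.inr ⟨e.1, true, e.2, rfl⟩⟩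
  t₂ e := ⟨m.C.t₂ e.1, Or.inr ⟨e.1, false, e.2, rfl⟩⟩
  hs₁ e := rfl
  ht₁ e := rfl
  hs₂ e := rfl
  ht₂ e := rfl

namespace Dat

variable (d : Dat m)

theorem type_inl (q : QB m) (x : d.D.R.E) (a : {e : m.C.A // m.Sp₁ e}) (b : Bool)
    (h : d.bd x = (.inl a, b)) : (d.D.e x).1.2 = false ∧
      a.1 = m.C.hside ((d.D.e x).1.1.1, (d.D.e x).1.1.2.2) ∧ b = !(d.D.e x).1.1.2.1 := by
  cases hx : (d.D.e x).1.2 with
  | false =>
    rw [d.bd_false' q x hx] at h
    have h1 := congrArg Prod.fst h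
    have h2 := congrArg Prod.snd h
    exact ⟨rfl, (congrArg Subtype.val (Sum.inl.inj h1)).symm, h2.symm⟩
  | true =>
    rw [d.bd_true' q x hx] at h
    have h1 := congrArg Prod.fst h
    exact absurd h1 (by simp)

theorem type_inr (q : QB m) (x : d.D.R.E) (a : {e : m.C.B // m.Sp₂ e}) (b : Bool)
    (h : d.bd x = (.inr a, b)) : (d.D.e x).1.2 = true ∧
      a.1 = m.C.vside ((d.D.e x).1.1.1, (d.D.e x).1.1.2.1) ∧ b = !(d.D.e x).1.1.2.2 := by
  cases hx : (d.D.e x).1.2 with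
  | false =>
    rw [d.bd_false' q x hx] at h
    have h1 := congrArg Prod.fst h
    exact absurd h1 (by simp)
  | true =>
    rw [d.bd_true' q x hx] at h
    have h1 := congrArg Prod.fst h
    have h2 := congrArg Prod.snd h
    exact ⟨rfl, (congrArg Subtype.val (Sum.inr.inj h1)).symm, h2.symm⟩

theorem AH_ne (x : d.D.R.E) (hx : (d.D.e x).1.2 = true) : d.D.AH.A x ≠ d.D.R.φ x := by
  intro h
  have h1 := (d.D.AH_true x hx).2
  have h2 : (m.quad.colC (d.D.e (d.D.AH.A x)).1.1) = m.quad.colC (d.D.e x).1.1 :=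
    orb_const m.quad.colC m.quad.colC_eta m.quad.colC_fa h1
  rw [h, d.D.φ_true x hx] at h2
  rw [m.quad.colC_fc] at h2
  cases hc : m.quad.colC (d.D.e x).1.1 <;> rw [hc] at h2 <;> exact absurd h2 (by decide)

theorem vt_inl (q : QB m) (x : d.D.R.E) (a : {e : m.C.A // m.Sp₁ e}) (b : Bool)
    (h : d.bd x = (.inl a, b)) : d.vt x = if b then d.s₁ a else d.t₁ a := by
  obtain ⟨h1, h2, h3⟩ := d.type_inl q x a b h
  apply Subtype.ext
  rw [d.hvt]
  have h4 : m.C.vert (d.D.e x).1.1 = m.C.org (.inl a.1, b) := by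
    rw [h2, h3]; rfl
  rw [h4]
  cases b
  · exact (d.ht₁ a).symm
  · exact (d.hs₁ a).symm

theorem vt_inr (q : QB m) (x : d.D.R.E) (a : {e : m.C.B // m.Sp₂ e}) (b : Bool)
    (h : d.bd x = (.inr a, b)) : d.vt x = if b then d.s₂ a else d.t₂ a := by
  obtain ⟨h1, h2, h3⟩ := d.type_inr q x a b h
  apply Subtype.ext
  rw [d.hvt]
  have h4 : m.C.vert (d.D.e x).1.1 = m.C.org (.inr a.1, b) := by
    rw [h2, h3, ← q.q7]; rfl
  rw [h4]
  cases b
  · exact (d.ht₂ a).symm
  · exact (d.hs₂ a).symm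

theorem AV_inl (q : QB m) (x : d.D.R.E) (a : {e : m.C.A // m.Sp₁ e}) (b : Bool)
    (h : d.bd x = (.inl a, b)) : d.D.AV.A x ≠ d.D.R.φ x ∧
      ∃ a', d.bd (d.D.AV.A x) = (.inl a', b) ∧ m.C.l₁ a'.1 = m.C.l₁ a.1 := by
  obtain ⟨h1, h2, h3⟩ := d.type_inl q x a b h
  refine ⟨d.AV_ne x h1, ?_⟩
  obtain ⟨h4, h5⟩ := d.D.AV_false x h1
  have h6 : ((d.D.e (d.D.AV.A x)).1.1).2.1 = ((d.D.e x).1.1).2.1 :=
    orb_const m.quad.colA m.quad.colA_nu m.quad.colA_fc h5
  have h7 := orb_const (fun κ : m.C.Cor => m.C.l₁ (m.C.hside (κ.1, κ.2.2))) (fun κ => by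
      have h8 : m.C.hside ((m.quad.nu κ).1, (m.quad.nu κ).2.2) = m.C.hside (κ.1, κ.2.2) :=
        Sum.inl.inj (congrArg Prod.fst (q.q3 κ))
      simp only
      rw [h8]) (fun κ => by
      obtain ⟨s, a', c⟩ := κ
      show m.C.l₁ (m.C.hside (s, !c)) = m.C.l₁ (m.C.hside (s, c))
      cases c
      · exact (m.C.h5 s).symm
      · exact m.C.h5 s) h5
  refine ⟨⟨_, d.sp_false q _ h4⟩, ?_, ?_⟩
  · rw [d.bd_false' q _ h4, h6, h3]
  · rw [h2]
    exact h7

theorem AH_inr (q : QB m) (x : d.D.R.E) (a : {e : m.C.B // m.Sp₂ e}) (b : Bool)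
    (h : d.bd x = (.inr a, b)) : d.D.AH.A x ≠ d.D.R.φ x ∧
      ∃ a', d.bd (d.D.AH.A x) = (.inr a', b) ∧ m.C.l₂ a'.1 = m.C.l₂ a.1 := by
  obtain ⟨h1, h2, h3⟩ := d.type_inr q x a b h
  refine ⟨d.AH_ne x h1, ?_⟩
  obtain ⟨h4, h5⟩ := d.D.AH_true x h1
  have h6 : ((d.D.e (d.D.AH.A x)).1.1).2.2 = ((d.D.e x).1.1).2.2 :=
    orb_const m.quad.colC m.quad.colC_eta m.quad.colC_fa h5
  have h7 := orb_const (fun κ : m.C.Cor => m.C.l₂ (m.C.vside (κ.1, κ.2.1))) (fun κ => by
      have h8 : m.C.vside ((m.quad.eta κ).1, (m.quad.eta κ).2.1) = m.C.vside (κ.1, κ.2.1) :=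
        Sum.inr.inj (congrArg Prod.fst (q.q4 κ))
      simp only
      rw [h8]) (fun κ => by
      obtain ⟨s, c, a'⟩ := κ
      show m.C.l₂ (m.C.vside (s, !c)) = m.C.l₂ (m.C.vside (s, c))
      cases c
      · exact (m.C.h6 s).symm
      · exact m.C.h6 s) h5
  refine ⟨⟨_, d.sp_true q _ h4⟩, ?_, ?_⟩
  · rw [d.bd_true' q _ h4, h6, h3]
  · rw [h2]
    exact h7

end Dat

/-! ### Cardinalities -/

theorem card_rim (q : QB m) (D : m.quad.RimData) :
    Fintype.card D.R.E ≤ 2 * Nat.card {x : m.C.S × Bool // m.Sp₁ (m.C.hside x)} +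
      2 * Nat.card {x : m.C.S × Bool // m.Sp₂ (m.C.vside x)} := by
  classical
  let F : D.R.E → ({x : m.C.S × Bool // m.Sp₁ (m.C.hside x)} × Bool) ⊕
      ({x : m.C.S × Bool // m.Sp₂ (m.C.vside x)} × Bool) := fun x =>
    if h : (D.e x).1.2 = false then
      .inl (⟨((D.e x).1.1.1, (D.e x).1.1.2.2), spf q D x h⟩, (D.e x).1.1.2.1)
    else .inr (⟨((D.e x).1.1.1, (D.e x).1.1.2.1), spt q D x (by simpa using h)⟩,
      (D.e x).1.1.2.2)
  have hF : Function.Injective F := by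
    intro x y hxy
    apply D.e.injective
    apply Subtype.ext
    cases hx : (D.e x).1.2 with
    | false =>
      have e1 : F x = .inl (⟨((D.e x).1.1.1, (D.e x).1.1.2.2), spf q D x hx⟩,
        (D.e x).1.1.2.1) := dif_pos hx
      cases hy : (D.e y).1.2 with
      | false =>
        have e2 : F y = .inl (⟨((D.e y).1.1.1, (D.e y).1.1.2.2), spf q D y hy⟩,
          (D.e y).1.1.2.1) := dif_pos hy
        rw [e1, e2] at hxy
        have h1 := Sum.inl.inj hxy
        have h2 := congrArg Prod.snd h1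
        have h3 := congrArg Subtype.val (congrArg Prod.fst h1)
        simp only [Prod.mk.injEq] at h2 h3
        exact Prod.ext (Prod.ext h3.1 (Prod.ext h2 h3.2)) (hx.trans hy.symm)
      | true =>
        have e2 : F y = .inr (⟨((D.e y).1.1.1, (D.e y).1.1.2.1), spt q D y hy⟩,
          (D.e y).1.1.2.2) := dif_neg (by rw [hy]; decide)
        rw [e1, e2] at hxy
        exact absurd hxy (by simp)
    | true =>
      have e1 : F x = .inr (⟨((D.e x).1.1.1, (D.e x).1.1.2.1), spt q D x hx⟩,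
        (D.e x).1.1.2.2) := dif_neg (by rw [hx]; decide)
      cases hy : (D.e y).1.2 with
      | false =>
        have e2 : F y = .inl (⟨((D.e y).1.1.1, (D.e y).1.1.2.2), spf q D y hy⟩,
          (D.e y).1.1.2.1) := dif_pos hy
        rw [e1, e2] at hxy
        exact absurd hxy (by simp)
      | true =>
        have e2 : F y = .inr (⟨((D.e y).1.1.1, (D.e y).1.1.2.1), spt q D y hy⟩,
          (D.e y).1.1.2.2) := dif_neg (by rw [hy]; decide)
        rw [e1, e2] at hxy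
        have h1 := Sum.inr.inj hxy
        have h2 := congrArg Prod.snd h1
        have h3 := congrArg Subtype.val (congrArg Prod.fst h1)
        simp only [Prod.mk.injEq] at h2 h3
        exact Prod.ext (Prod.ext h3.1 (Prod.ext h3.2 h2)) (hx.trans hy.symm)
  have h1 := Nat.card_le_card_of_injective F hF
  rw [Nat.card_eq_fintype_card, Nat.card_sum, Nat.card_prod, Nat.card_prod,
    Nat.card_eq_fintype_card (α := Bool), Fintype.card_bool] at h1
  omega

theorem card_GV (m : Model n X Y) : Nat.card m.GV ≤ 2 * Nat.card {e : m.C.A // m.Sp₁ e} +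
      2 * Nat.card {e : m.C.B // m.Sp₂ e} := by
  classical
  have hex : ∀ g : m.GV, ∃ y : ({e : m.C.A // m.Sp₁ e} × Bool) ⊕ ({e : m.C.B // m.Sp₂ e} × Bool),
      Sum.elim (fun z => m.C.org (.inl z.1.1, z.2)) (fun z => m.C.org (.inr z.1.1, z.2)) y =
        g.1 := by
    rintro ⟨v, ⟨e, b, hs, hv⟩ | ⟨e, b, hs, hv⟩⟩
    · exact ⟨.inl (⟨e, hs⟩, b), hv⟩
    · exact ⟨.inr (⟨e, hs⟩, b), hv⟩
  choose F hF using hex
  have hinj : Function.Injective F := by
    intro g g' h
    apply Subtype.ext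
    rw [← hF g, ← hF g', h]
  have h1 := Nat.card_le_card_of_injective F hinj
  rw [Nat.card_sum, Nat.card_prod, Nat.card_prod,
    Nat.card_eq_fintype_card (α := Bool), Fintype.card_bool] at h1
  omega

/-- the vertices of the transposed model -/
def jGV (m : Model n X Y) : m.GV ≃ m.T.GV where
  toFun v := ⟨v.1, v.2.symm⟩
  invFun v := ⟨v.1, v.2.symm⟩
  left_inv v := rfl
  right_inv v := rfl

end SU76

open SU76

theorem spine (ht : TameStatement) (hc : CountStatement) (hq : QuadBasicStatement)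
    (hs : StripsStatement) (h3 : P3Statement) (hf : QuadForestStatement) (hr : RimDataStatement)
    (hS : SurfStatement) (hu : SurfUnivStatement) : SpineStatement := by
  classical
  intro n X Y ψ hψ hX0 hX hY hXa hYa hTX hTY
  have hY0 : Y ≠ [] := by
    rintro rfl
    have h1 : mk X = 1 := by
      apply ψ.injective
      rw [hψ, _root_.map_one]
      rfl
    have h2 : (mk X : FreeGroup (Fin n)).toWord = [] := by rw [h1]; simp
    rw [FreeGroup.toWord_mk, hX.isReduced.reduce_eq] at h2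
    exact hX0 h2
  obtain ⟨m, hT⟩ := ht n X Y ψ hψ hX hY hXa hYa hTX hTY
  obtain ⟨D⟩ := hr m.quad
  have q : QB m := qb m hq
  have q' : QB m.T := qb m.T hq
  obtain ⟨-, -, -, -, -, -, -, -, -, hTs, hTf, hDD⟩ := hq n X Y m
  obtain ⟨D', i, hi1, hi2, hi3, hi4, hi5⟩ := hDD D
  let d := mkDat q D
  let d' := mkDat q' D'
  have hst := hs n X Y m
  have hfo := hf n X Y m (h3 n X Y m hT hX hY hX0 hY0 hTY)
  have hst' := hTs (hs n Y X m.T)
  have hfo' := hTf (hf n Y X m.T (h3 n Y X m.T hT.T hY hX hY0 hX0 hTX))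
  obtain ⟨hinv, heqv⟩ := hS m.quad D hst hfo hst' hfo'
  have hcard := hc n X Y m hT
  have hcard' := hc n Y X m.T hT.T
  -- the path
  have hpS : ∀ x ∈ m.hp, m.Sp₁ x.1 := fun x hx => Or.inl ⟨x.2, hx⟩
  have vpS : ∀ x ∈ m.vp, m.Sp₂ x.1 := fun x hx => Or.inl ⟨x.2, hx⟩
  have hw0 : ∃ g : m.GV, g.1 = m.w0 := by
    have h1 := m.hp_path
    have h2 := m.hp_read
    cases hh : m.hp with
    | nil =>
      rw [hh] at h2
      exact absurd h2.symm hX0
    | cons x L =>
      obtain ⟨e, b⟩ := x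
      rw [hh] at h1
      refine ⟨⟨m.w0, Or.inl ⟨e, b, hpS (e, b) (by rw [hh]; exact List.mem_cons_self), ?_⟩⟩, rfl⟩
      exact h1.1.symm
  have hw1 : ∃ g : m.GV, g.1 = m.w1 := by
    have h1 := m.vp_path
    have h2 := m.vp_read
    cases hh : m.vp with
    | nil =>
      rw [hh] at h2
      exact absurd h2.symm hY0
    | cons x L =>
      obtain ⟨e, b⟩ := x
      rw [hh] at h1
      refine ⟨⟨m.w1, Or.inr ⟨e, b, vpS (e, b) (by rw [hh]; exact List.mem_cons_self), ?_⟩⟩, rfl⟩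
      exact h1.1.symm
  obtain ⟨o, ho⟩ := hw0
  obtain ⟨o', ho'⟩ := hw1
  have hU := hu n X Y m hT hX hY hX0 hY0 hTX hTY D d.vt d.bd d.hvt d.hbf d.hbt d.s₁ d.t₁ d.s₂
    d.t₂ d.hs₁ d.ht₁ d.hs₂ d.ht₂
  have hU' := hu n Y X m.T hT.T hY hX hY0 hX0 hTY hTX D' d'.vt d'.bd d'.hvt d'.hbf d'.hbt d'.s₁
    d'.t₁ d'.s₂ d'.t₂ d'.hs₁ d'.ht₁ d'.hs₂ d'.ht₂
  have hUH : SpineUniv D.R D.AH o d.s₂ d.t₂ (fun e => m.C.l₂ e.1) d.s₁ d.t₁ d.vt
      (fun e => ((d.bd e).1.swap, (d.bd e).2)) := by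
    refine spineUniv_transport D.AH D'.AV o d.s₂ d.t₂ (fun e => m.C.l₂ e.1) d.s₁ d.t₁ d.vt
      (fun e => ((d.bd e).1.swap, (d.bd e).2)) d'.s₁ d'.t₁ (fun e => m.T.C.l₁ e.1) d'.s₂ d'.t₂
      d'.vt d'.bd i (jGV m) (Equiv.refl _) (Equiv.refl _) hi1 hi2 hi3 (fun _ => rfl)
      (fun _ => rfl) (fun _ => rfl) (fun _ => rfl) (fun _ => rfl) ?_ ?_ (hU'.1 _)
    · intro x
      apply Subtype.ext
      have e1 : (d'.vt (i x)).1 = m.T.C.vert (D'.e (i x)).1.1 := rfl
      have e2 : (D'.e (i x)).1.1 = ((D.e x).1.1.1, (D.e x).1.1.2.2, (D.e x).1.1.2.1) :=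
        congrArg Prod.fst (hi5 x)
      rw [e1, e2]
      exact q.q7 (D.e x).1.1
    · intro x
      have e2 : (D'.e (i x)).1.1 = ((D.e x).1.1.1, (D.e x).1.1.2.2, (D.e x).1.1.2.1) :=
        congrArg Prod.fst (hi5 x)
      have e3 : (D'.e (i x)).1.2 = !(D.e x).1.2 := congrArg Prod.snd (hi5 x)
      cases hx : (D.e x).1.2 with
      | false =>
        rw [hx] at e3
        have e4 := d'.bd_true (i x) e3 (m.C.hside ((D.e x).1.1.1, (D.e x).1.1.2.2))
          (!(D.e x).1.1.2.1) (spf q D x hx) (by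
            show m.T.C.vgerm (D'.e (i x)).1.1 = _
            rw [e2]
            rfl)
        rw [e4]
        simp only
        rw [d.bd_false' q x hx]
        rfl
      | true =>
        rw [hx] at e3
        have e4 := d'.bd_false (i x) e3 (m.C.vside ((D.e x).1.1.1, (D.e x).1.1.2.1))
          (!(D.e x).1.1.2.2) (spt q D x hx) (by
            show m.T.C.hgerm (D'.e (i x)).1.1 = _
            rw [e2]
            rfl)
        rw [e4]
        simp only
        rw [d.bd_true' q x hx]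
        rfl
  exact ⟨{
    R := D.R
    AV := D.AV
    AH := D.AH
    G := m.GV
    A := {e : m.C.A // m.Sp₁ e}
    B := {e : m.C.B // m.Sp₂ e}
    fG := Fintype.ofFinite _
    fA := Fintype.ofFinite _
    fB := Fintype.ofFinite _
    s₁ := d.s₁
    t₁ := d.t₁
    l₁ := fun e => m.C.l₁ e.1
    s₂ := d.s₂
    t₂ := d.t₂
    l₂ := fun e => m.C.l₂ e.1
    vt := d.vt
    bd := d.bd
    vt_σ := fun x => d.vt_orb q x _ (D.σ_orb x)
    bd_φ := d.bd_φ q
    vt_inl := d.vt_inl q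
    vt_inr := d.vt_inr q
    AV_inr := fun x a b h => D.AV_true x (d.type_inr q x a b h).1
    AV_inl := d.AV_inl q
    AH_inl := fun x a b h => D.AH_false x (d.type_inl q x a b h).1
    AH_inr := d.AH_inr q
    o := o
    o' := o'
    hp := m.hp.pmap (fun x hx => (⟨x.1, hx⟩, x.2)) hpS
    vp := m.vp.pmap (fun x hx => (⟨x.1, hx⟩, x.2)) vpS
    hp_path := isPath_pmap m.C.s₁ m.C.t₁ m.Sp₁ d.s₁ d.t₁ Subtype.val Subtype.val_injective
      d.hs₁ d.ht₁ m.hp hpS o o' (by rw [ho, ho']; exact m.hp_path)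
    vp_path := isPath_pmap m.C.s₂ m.C.t₂ m.Sp₂ d.s₂ d.t₂ Subtype.val Subtype.val_injective
      d.hs₂ d.ht₂ m.vp vpS o' o (by rw [ho, ho']; exact m.vp_path)
    hp_read := (readW_pmap m.Sp₁ m.C.l₁ m.hp hpS).trans m.hp_read
    vp_read := (readW_pmap m.Sp₂ m.C.l₂ m.vp vpS).trans m.vp_read
    univV := hU.1 o
    univH := hUH
    connV := hU.2
    invIff := hinv
    eqvP := heqv
    card_E := by
      have h1 := card_rim q D
      have h2 := hcard.2
      have h4 : Nat.card {x : m.C.S × Bool // m.Sp₂ (m.C.vside x)} ≤ 8 * Y.length := hcard'.2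
      omega
    card_G := by
      have h1 := card_GV m
      have h2 := hcard.1
      have h4 : Nat.card {e : m.C.B // m.Sp₂ e} ≤ 3 * Y.length := hcard'.1
      have h5 : @Fintype.card m.GV (Fintype.ofFinite _) = Nat.card m.GV :=
        (@Nat.card_eq_fintype_card m.GV (Fintype.ofFinite _)).symm
      rw [h5]
      omega }⟩

end Pool.Agent.Helper35_WH
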