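import Pool.Agent.Helper35_WH.Stmt2

/-!
# Module SURFUNIV (helper76): the universal property of the surface and its vertical chords
-/

namespace Pool.Agent.Helper35_WH

open FreeGroup

set_option allowUnsafeReducibility true
attribute [local reducible] Model.quad Model.GV

namespace SU76

variable {n : ℕ} {X Y : List (Lt n)} (m : Model n X Y)

theorem hgerm_fa (κ : m.C.Cor) : m.C.hgerm (m.quad.fa κ) = inv (m.C.hgerm κ) := rfl

theorem vgerm_fc (κ : m.C.Cor) : m.C.vgerm (m.quad.fc κ) = inv (m.C.vgerm κ) := rfl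

theorem vert_fa (κ : m.C.Cor) : m.C.vert (m.quad.fa κ) = m.C.org (inv (m.C.hgerm κ)) := rfl

theorem vert_eq (κ : m.C.Cor) : m.C.vert κ = m.C.org (m.C.hgerm κ) := rfl

/-- functions which are invariant under the generators are constant on orbits -/
theorem orb_const {K α : Type} {f g : K → K} (F : K → α) (hf : ∀ x, F (f x) = F x)
    (hg : ∀ x, F (g x) = F x) {k k' : K} (h : Orb f g k k') : F k' = F k :=
  h (fun x => F x = F k) (fun x hx => (hf x).trans hx) (fun x hx => (hg x).trans hx) rfl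

/-- the label of a directed edge: the letter for horizontal edges -/
theorem org_inl (e : m.C.A) (b : Bool) : m.C.org (.inl e, b) = if b then m.C.s₁ e else m.C.t₁ e :=
  rfl

theorem org_inr (e : m.C.B) (b : Bool) : m.C.org (.inr e, b) = if b then m.C.s₂ e else m.C.t₂ e :=
  rfl

/-- the label of the horizontal side of a corner, read away from the corner -/
def hval {M : Type} [Group M] (h : FreeGroup (Fin n) →* M) (κ : m.C.Cor) : M :=
  if κ.2.1 then (h (of (m.C.l₁ (m.C.hside (κ.1, κ.2.2)))))⁻¹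
  else h (of (m.C.l₁ (m.C.hside (κ.1, κ.2.2))))

theorem hval_fa {M : Type} [Group M] (h : FreeGroup (Fin n) →* M) (κ : m.C.Cor) :
    hval m h (m.quad.fa κ) = (hval m h κ)⁻¹ := by
  obtain ⟨q, a, c⟩ := κ
  show (if (!a) = true then (h (of (m.C.l₁ (m.C.hside (q, c)))))⁻¹
    else h (of (m.C.l₁ (m.C.hside (q, c))))) = (if a = true then _ else _)⁻¹
  cases a <;> simp

theorem hval_fc {M : Type} [Group M] (h : FreeGroup (Fin n) →* M) (κ : m.C.Cor) :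
    hval m h (m.quad.fc κ) = hval m h κ := by
  obtain ⟨q, a, c⟩ := κ
  have h1 : m.C.l₁ (m.C.hside (q, !c)) = m.C.l₁ (m.C.hside (q, c)) := by
    cases c
    · exact (m.C.h5 q).symm
    · exact m.C.h5 q
  show (if a = true then (h (of (m.C.l₁ (m.C.hside (q, !c)))))⁻¹
    else h (of (m.C.l₁ (m.C.hside (q, !c))))) = if a = true then _ else _
  rw [h1]

theorem hval_of_hgerm {M : Type} [Group M] (h : FreeGroup (Fin n) →* M) (κ κ' : m.C.Cor)
    (hh : m.C.hgerm κ = m.C.hgerm κ') : hval m h κ = hval m h κ' := by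
  obtain ⟨q, a, c⟩ := κ
  obtain ⟨q', a', c'⟩ := κ'
  have h1 : m.C.hside (q, c) = m.C.hside (q', c') := Sum.inl.inj (congrArg Prod.fst hh)
  have h2 : (!a) = !a' := congrArg Prod.snd hh
  have h3 : a = a' := by
    cases a <;> cases a' <;> simp_all
  subst h3
  show (if a = true then (h (of (m.C.l₁ (m.C.hside (q, c)))))⁻¹
    else h (of (m.C.l₁ (m.C.hside (q, c))))) = if a = true then _ else _
  rw [h1]

/-- the part of `QuadBasicStatement` which is used -/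
structure QB : Prop where
  q1 : ∀ κ, m.quad.nu κ = κ ↔ m.Sp₁ (m.C.hside (κ.1, κ.2.2))
  q2 : ∀ κ, m.quad.eta κ = κ ↔ m.Sp₂ (m.C.vside (κ.1, κ.2.1))
  q3 : ∀ κ, m.C.hgerm (m.quad.nu κ) = m.C.hgerm κ
  q4 : ∀ κ, m.C.vgerm (m.quad.eta κ) = m.C.vgerm κ
  q5 : ∀ κ κ', m.C.hgerm κ = m.C.hgerm κ' → ¬ m.Sp₁ (m.C.hside (κ.1, κ.2.2)) →
      κ' = κ ∨ κ' = m.quad.nu κ
  q6 : ∀ κ κ', m.C.vgerm κ = m.C.vgerm κ' → ¬ m.Sp₂ (m.C.vside (κ.1, κ.2.1)) →
      κ' = κ ∨ κ' = m.quad.eta κ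
  q7 : ∀ κ, m.C.org (m.C.vgerm κ) = m.C.vert κ
  q8 : ∀ κ, m.C.vert (m.quad.nu κ) = m.C.vert κ
  q9 : ∀ κ, m.C.vert (m.quad.eta κ) = m.C.vert κ

theorem qb (hq : QuadBasicStatement) : QB m := by
  obtain ⟨h1, h2, h3, h4, h5, h6, h7, h8, h9, -⟩ := hq n X Y m
  exact ⟨h1, h2, h3, h4, h5, h6, h7, h8, h9⟩

variable {m}

theorem QB.vert_fc (q : QB m) (κ : m.C.Cor) :
    m.C.vert (m.quad.fc κ) = m.C.org (inv (m.C.vgerm κ)) := by
  rw [← q.q7 (m.quad.fc κ), vgerm_fc]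

theorem QB.vert_orb (q : QB m) {κ κ' : m.C.Cor} (h : Orb m.quad.nu m.quad.eta κ κ') :
    m.C.vert κ' = m.C.vert κ := orb_const m.C.vert q.q8 q.q9 h

variable (m)

/-- every non special horizontal edge is the side of a square -/
theorem exists_h (e : m.C.A) (he : ¬ m.Sp₁ e) :
    ∃ κ : m.C.Cor, m.C.hgerm κ = (.inl e, true) := by
  unfold Model.Sp₁ at he
  push Not at he
  have h1 : 0 < Fintype.card {x : m.C.S × Bool // m.C.hside x = e} := by rw [he.2]; norm_num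
  obtain ⟨⟨⟨q, c⟩, hx⟩⟩ := Fintype.card_pos_iff.1 h1
  refine ⟨(q, false, c), ?_⟩
  show ((Sum.inl (m.C.hside (q, c)), !false) : m.C.Dir) = (.inl e, true)
  rw [hx]
  rfl

theorem exists_v (e : m.C.B) (he : ¬ m.Sp₂ e) :
    ∃ κ : m.C.Cor, m.C.vgerm κ = (.inr e, true) := by
  unfold Model.Sp₂ at he
  push Not at he
  have h1 : 0 < Fintype.card {x : m.C.S × Bool // m.C.vside x = e} := by rw [he.2]; norm_num
  obtain ⟨⟨⟨q, c⟩, hx⟩⟩ := Fintype.card_pos_iff.1 h1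
  refine ⟨(q, c, false), ?_⟩
  show ((Sum.inr (m.C.vside (q, c)), !false) : m.C.Dir) = (.inr e, true)
  rw [hx]
  rfl

/-- the data of the statement -/
structure Dat where
  D : m.quad.RimData
  vt : D.R.E → m.GV
  bd : D.R.E → ({e : m.C.A // m.Sp₁ e} ⊕ {e : m.C.B // m.Sp₂ e}) × Bool
  hvt : ∀ x, (vt x).1 = m.C.vert (D.e x).1.1
  hbf : ∀ x, (D.e x).1.2 = false → (Sum.map Subtype.val Subtype.val (bd x).1, (bd x).2) =
        m.C.hgerm (D.e x).1.1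
  hbt : ∀ x, (D.e x).1.2 = true → (Sum.map Subtype.val Subtype.val (bd x).1, (bd x).2) =
        m.C.vgerm (D.e x).1.1
  s₁ : {e : m.C.A // m.Sp₁ e} → m.GV
  t₁ : {e : m.C.A // m.Sp₁ e} → m.GV
  s₂ : {e : m.C.B // m.Sp₂ e} → m.GV
  t₂ : {e : m.C.B // m.Sp₂ e} → m.GV
  hs₁ : ∀ e, (s₁ e).1 = m.C.s₁ e.1
  ht₁ : ∀ e, (t₁ e).1 = m.C.t₁ e.1
  hs₂ : ∀ e, (s₂ e).1 = m.C.s₂ e.1
  ht₂ : ∀ e, (t₂ e).1 = m.C.t₂ e.1

variable {m}
variable (d : Dat m)

namespace Dat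

theorem bd_false (x : d.D.R.E) (hx : (d.D.e x).1.2 = false) (e : m.C.A) (c : Bool) (h : m.Sp₁ e)
    (hg : m.C.hgerm (d.D.e x).1.1 = (.inl e, c)) : d.bd x = (.inl ⟨e, h⟩, c) := by
  have h1 := d.hbf x hx
  rw [hg] at h1
  rcases hb : d.bd x with ⟨b1, b2⟩
  rw [hb] at h1
  have h2 : b2 = c := congrArg Prod.snd h1
  have h3 : Sum.map Subtype.val Subtype.val b1 = Sum.inl e := congrArg Prod.fst h1
  rcases b1 with b1 | b1
  · have h4 : b1.1 = e := Sum.inl.inj h3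
    have h5 : b1 = ⟨e, h⟩ := Subtype.ext h4
    rw [h5, h2]
  · exact absurd h3 (by simp)

theorem bd_true (x : d.D.R.E) (hx : (d.D.e x).1.2 = true) (e : m.C.B) (c : Bool) (h : m.Sp₂ e)
    (hg : m.C.vgerm (d.D.e x).1.1 = (.inr e, c)) : d.bd x = (.inr ⟨e, h⟩, c) := by
  have h1 := d.hbt x hx
  rw [hg] at h1
  rcases hb : d.bd x with ⟨b1, b2⟩
  rw [hb] at h1
  have h2 : b2 = c := congrArg Prod.snd h1
  have h3 : Sum.map Subtype.val Subtype.val b1 = Sum.inr e := congrArg Prod.fst h1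
  rcases b1 with b1 | b1
  · exact absurd h3 (by simp)
  · have h4 : b1.1 = e := Sum.inr.inj h3
    have h5 : b1 = ⟨e, h⟩ := Subtype.ext h4
    rw [h5, h2]

/-- boundary corners: horizontal -/
theorem sp_false (q : QB m) (x : d.D.R.E) (hx : (d.D.e x).1.2 = false) :
    m.Sp₁ (m.C.hside ((d.D.e x).1.1.1, (d.D.e x).1.1.2.2)) := by
  have h1 : (if (d.D.e x).1.2 then m.quad.eta (d.D.e x).1.1 else m.quad.nu (d.D.e x).1.1) =
    (d.D.e x).1.1 := (d.D.e x).2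
  rw [if_neg (by rw [hx]; decide)] at h1
  exact (q.q1 _).1 h1

theorem sp_true (q : QB m) (x : d.D.R.E) (hx : (d.D.e x).1.2 = true) :
    m.Sp₂ (m.C.vside ((d.D.e x).1.1.1, (d.D.e x).1.1.2.1)) := by
  have h1 : (if (d.D.e x).1.2 then m.quad.eta (d.D.e x).1.1 else m.quad.nu (d.D.e x).1.1) =
    (d.D.e x).1.1 := (d.D.e x).2
  rw [if_pos hx] at h1
  exact (q.q2 _).1 h1

theorem bd_false' (q : QB m) (x : d.D.R.E) (hx : (d.D.e x).1.2 = false) :
    d.bd x = (.inl ⟨m.C.hside ((d.D.e x).1.1.1, (d.D.e x).1.1.2.2), d.sp_false q x hx⟩,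
      !(d.D.e x).1.1.2.1) := d.bd_false x hx _ _ _ rfl

theorem bd_true' (q : QB m) (x : d.D.R.E) (hx : (d.D.e x).1.2 = true) :
    d.bd x = (.inr ⟨m.C.vside ((d.D.e x).1.1.1, (d.D.e x).1.1.2.1), d.sp_true q x hx⟩,
      !(d.D.e x).1.1.2.2) := d.bd_true x hx _ _ _ rfl

theorem exists_x_false (q : QB m) (κ : m.C.Cor) (h : m.Sp₁ (m.C.hside (κ.1, κ.2.2))) :
    ∃ x, (d.D.e x).1 = (κ, false) := by
  have h1 : m.quad.Bdry (κ, false) := by
    unfold Quad.Bdry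
    exact (q.q1 κ).2 h
  exact ⟨d.D.e.symm ⟨(κ, false), h1⟩, congrArg Subtype.val (Equiv.apply_symm_apply _ _)⟩

theorem exists_x_true (q : QB m) (κ : m.C.Cor) (h : m.Sp₂ (m.C.vside (κ.1, κ.2.1))) :
    ∃ x, (d.D.e x).1 = (κ, true) := by
  have h1 : m.quad.Bdry (κ, true) := by
    unfold Quad.Bdry
    exact (q.q2 κ).2 h
  exact ⟨d.D.e.symm ⟨(κ, true), h1⟩, congrArg Subtype.val (Equiv.apply_symm_apply _ _)⟩

theorem AV_ne (x : d.D.R.E) (hx : (d.D.e x).1.2 = false) : d.D.AV.A x ≠ d.D.R.φ x := by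
  intro h
  have h1 := (d.D.AV_false x hx).2
  have h2 : (m.quad.colA (d.D.e (d.D.AV.A x)).1.1) = m.quad.colA (d.D.e x).1.1 :=
    orb_const m.quad.colA m.quad.colA_nu m.quad.colA_fc h1
  rw [h, d.D.φ_false x hx] at h2
  rw [m.quad.colA_fa] at h2
  cases hc : m.quad.colA (d.D.e x).1.1 <;> rw [hc] at h2 <;> exact absurd h2 (by decide)

theorem type_of_ne (x : d.D.R.E) (h : d.D.AV.A x ≠ d.D.R.φ x) : (d.D.e x).1.2 = false := by
  by_contra hc
  exact h (d.D.AV_true x (by simpa using hc))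

theorem bd_φ (q : QB m) (x : d.D.R.E) : d.bd (d.D.R.φ x) = inv (d.bd x) := by
  cases hx : (d.D.e x).1.2 with
  | false =>
    have h1 := d.D.φ_false x hx
    have h2 : (d.D.e (d.D.R.φ x)).1.2 = false := by rw [h1]
    rw [d.bd_false' q x hx]
    refine d.bd_false _ h2 _ _ _ ?_
    rw [h1]
    rfl
  | true =>
    have h1 := d.D.φ_true x hx
    have h2 : (d.D.e (d.D.R.φ x)).1.2 = true := by rw [h1]
    rw [d.bd_true' q x hx]
    refine d.bd_true _ h2 _ _ _ ?_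
    rw [h1]
    rfl

theorem vt_orb (q : QB m) (x y : d.D.R.E)
    (h : Orb m.quad.nu m.quad.eta (d.D.e x).1.1 (d.D.e y).1.1) : d.vt y = d.vt x := by
  apply Subtype.ext
  rw [d.hvt, d.hvt]
  exact q.vert_orb h

/-! ### Existence -/

theorem bval_bd (q : QB m) {M : Type} [Group M] (μ₁ : {e : m.C.A // m.Sp₁ e} → M)
    (μ₂ : {e : m.C.B // m.Sp₂ e} → M) : d.D.R.Bd (bval d.bd μ₁ μ₂) := by
  intro x
  unfold bval
  rw [d.bd_φ q x]
  cases hb : (d.bd x).2 <;> simp [inv, hb]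

theorem existence (q : QB m) (hst : m.quad.Strips) (hr : RecStatement) (o : m.GV)
    (M : Type) [Group M] (μ₁ : {e : m.C.A // m.Sp₁ e} → M) (μ₂ : {e : m.C.B // m.Sp₂ e} → M)
    (a : d.D.R.E → M) (ha : Sol d.D.AV (bval d.bd μ₁ μ₂) a) :
    ∃ x : (FreeGroup (Fin n) →* M) × (m.GV → M), x.2 o = 1 ∧
      (∀ e, μ₁ e = (x.2 (d.s₁ e))⁻¹ * x.1 (of (m.C.l₁ e.1)) * x.2 (d.t₁ e)) ∧
      (∀ e, μ₂ e = (x.2 (d.s₂ e))⁻¹ * x.2 (d.t₂ e)) ∧
      ∀ e, d.D.AV.A e ≠ d.D.R.φ e → a e = (x.2 (d.vt e))⁻¹ * x.2 (d.vt (d.D.AV.A e)) := by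
  classical
  obtain ⟨vV, vH, p, hrep, hpot, hbv, hch⟩ := (hr m.quad d.D M).2 hst _ a (d.bval_bd q μ₁ μ₂) ha
  -- the labelling of the complex
  let mu1 : m.C.A → M := fun e => if h : m.Sp₁ e then μ₁ ⟨e, h⟩ else
    vH (exists_h m e h).choose
  let mu2 : m.C.B → M := fun e => if h : m.Sp₂ e then μ₂ ⟨e, h⟩ else
    vV (exists_v m e h).choose
  have hmu1 : ∀ (κ : m.C.Cor) (e : m.C.A), m.C.hgerm κ = (.inl e, true) → mu1 e = vH κ := by
    intro κ e hκ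
    have he : m.C.hside (κ.1, κ.2.2) = e := Sum.inl.inj (congrArg Prod.fst hκ)
    by_cases h : m.Sp₁ e
    · have h1 : mu1 e = μ₁ ⟨e, h⟩ := dif_pos h
      rw [h1]
      obtain ⟨x, hx⟩ := d.exists_x_false q κ (by rw [he]; exact h)
      have hx2 : (d.D.e x).1.2 = false := by rw [hx]
      have h2 := hbv x
      have h3 : d.bd x = (.inl ⟨e, h⟩, true) := d.bd_false x hx2 e true h (by rw [hx]; exact hκ)
      unfold Quad.RimData.bv bval at h2
      rw [h3, hx] at h2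
      simpa using h2.symm
    · have h1 : mu1 e = vH (exists_h m e h).choose := dif_neg h
      have h2 := (exists_h m e h).choose_spec
      rw [h1]
      rcases q.q5 κ _ (hκ.trans h2.symm) (by rw [he]; exact h) with h3 | h3
      · rw [h3]
      · rw [h3, hrep.nuH]
  have hmu2 : ∀ (κ : m.C.Cor) (e : m.C.B), m.C.vgerm κ = (.inr e, true) → mu2 e = vV κ := by
    intro κ e hκ
    have he : m.C.vside (κ.1, κ.2.1) = e := Sum.inr.inj (congrArg Prod.fst hκ)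
    by_cases h : m.Sp₂ e
    · have h1 : mu2 e = μ₂ ⟨e, h⟩ := dif_pos h
      rw [h1]
      obtain ⟨x, hx⟩ := d.exists_x_true q κ (by rw [he]; exact h)
      have hx2 : (d.D.e x).1.2 = true := by rw [hx]
      have h2 := hbv x
      have h3 : d.bd x = (.inr ⟨e, h⟩, true) := d.bd_true x hx2 e true h (by rw [hx]; exact hκ)
      unfold Quad.RimData.bv bval at h2
      rw [h3, hx] at h2
      simpa using h2.symm
    · have h1 : mu2 e = vV (exists_v m e h).choose := dif_neg h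
      have h2 := (exists_v m e h).choose_spec
      rw [h1]
      rcases q.q6 κ _ (hκ.trans h2.symm) (by rw [he]; exact h) with h3 | h3
      · rw [h3]
      · rw [h3, hrep.etaV]
  have hflat : m.C.Flat mu1 mu2 := by
    intro s
    have h1 : mu1 (m.C.bot s) = vH (s, false, false) := hmu1 (s, false, false) _ rfl
    have h2 : mu2 (m.C.rig s) = vV (s, true, false) := hmu2 (s, true, false) _ rfl
    have h3 : mu2 (m.C.lef s) = vV (s, false, false) := hmu2 (s, false, false) _ rfl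
    have h4 : mu1 (m.C.top s) = vH (s, false, true) := hmu1 (s, false, true) _ rfl
    rw [h1, h2, h3, h4]
    exact hrep.flat (s, false, false)
  obtain ⟨⟨h, p'⟩, ⟨hp0, hp1, hp2⟩, -⟩ := (m.univ.base o.1) M mu1 mu2 hflat
  simp only at hp0 hp1 hp2
  refine ⟨(h.comp m.eX.toMonoidHom, fun v => p' v.1), hp0, ?_, ?_, ?_⟩
  · intro e
    have h1 : mu1 e.1 = μ₁ e := dif_pos e.2
    show μ₁ e = (p' (d.s₁ e).1)⁻¹ * h (m.eX (of (m.C.l₁ e.1))) * p' (d.t₁ e).1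
    rw [← h1, hp1 e.1, d.hs₁, d.ht₁]
  · intro e
    have h1 : mu2 e.1 = μ₂ e := dif_pos e.2
    show μ₂ e = (p' (d.s₂ e).1)⁻¹ * p' (d.t₂ e).1
    rw [← h1, hp2 e.1, d.hs₂, d.ht₂, _root_.map_one, mul_one]
  · intro x hx
    have hx2 := d.type_of_ne x hx
    show a x = (p' (d.vt x).1)⁻¹ * p' (d.vt (d.D.AV.A x)).1
    rw [hch x hx2, d.hvt, d.hvt]
    -- the vertical values
    have hval : ∀ κ : m.C.Cor, vV κ = (p' (m.C.vert κ))⁻¹ * p' (m.C.vert (m.quad.fc κ)) := by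
      have key : ∀ κ : m.C.Cor, κ.2.2 = false →
          vV κ = (p' (m.C.vert κ))⁻¹ * p' (m.C.vert (m.quad.fc κ)) := by
        intro κ hκ
        have h1 : m.C.vgerm κ = (.inr (m.C.vside (κ.1, κ.2.1)), true) := by
          unfold Cx.vgerm
          rw [hκ]
          rfl
        rw [← hmu2 κ _ h1, hp2, _root_.map_one, mul_one, ← q.q7 κ, q.vert_fc κ, h1]
        rfl
      intro κ
      cases hc : κ.2.2 with
      | false => exact key κ hc
      | true =>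
        have h1 : (m.quad.fc κ).2.2 = false := by
          show (!κ.2.2) = false
          rw [hc]; rfl
        have h2 := key _ h1
        rw [hrep.fcV, m.quad.fcfc] at h2
        have h3 := congrArg (·⁻¹) h2
        simp only [_root_.inv_inv, mul_inv_rev] at h3
        exact h3
    have hinv : ∀ κ : m.C.Cor, p (m.quad.fc κ) * (p' (m.C.vert (m.quad.fc κ)))⁻¹ =
        p κ * (p' (m.C.vert κ))⁻¹ := by
      intro κ
      have h1 := hpot.fc κ
      rw [hval κ] at h1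
      have h2 : p (m.quad.fc κ) = p κ * ((p' (m.C.vert κ))⁻¹ * p' (m.C.vert (m.quad.fc κ))) := by
        rw [h1]; group
      rw [h2]; group
    have h1 := (d.D.AV_false x hx2).2
    have h2 := orb_const (fun κ : m.C.Cor => p κ * (p' (m.C.vert κ))⁻¹)
      (fun κ => by
        show p (m.quad.nu κ) * (p' (m.C.vert (m.quad.nu κ)))⁻¹ = p κ * (p' (m.C.vert κ))⁻¹
        rw [hpot.nu, q.q8]) hinv h1
    simp only at h2
    have h3 : p (d.D.e (d.D.AV.A x)).1.1 = p (d.D.e x).1.1 *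
        (p' (m.C.vert (d.D.e x).1.1))⁻¹ * p' (m.C.vert (d.D.e (d.D.AV.A x)).1.1) := by
      rw [← h2]; group
    rw [h3]; group

/-! ### Uniqueness -/

/-- extension of a gauge to all vertices -/
noncomputable def ext {M : Type} [Group M] (m : Model n X Y) (p : m.GV → M) (v : m.C.V) : M := by
  classical
  exact if h : (∃ (e : m.C.A) (b : Bool), m.Sp₁ e ∧ m.C.org (.inl e, b) = v) ∨
    ∃ (e : m.C.B) (b : Bool), m.Sp₂ e ∧ m.C.org (.inr e, b) = v then p ⟨v, h⟩ else 1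

theorem ext_of {M : Type} [Group M] (p : m.GV → M) (g : m.GV) : ext m p g.1 = p g := by
  unfold ext
  rw [dif_pos g.2]

/-- a solution -/
structure IsSol {M : Type} [Group M] (o : m.GV) (μ₁ : {e : m.C.A // m.Sp₁ e} → M)
    (μ₂ : {e : m.C.B // m.Sp₂ e} → M) (a : d.D.R.E → M)
    (x : (FreeGroup (Fin n) →* M) × (m.GV → M)) : Prop where
  s0 : x.2 o = 1
  s1 : ∀ e, μ₁ e = (x.2 (d.s₁ e))⁻¹ * x.1 (of (m.C.l₁ e.1)) * x.2 (d.t₁ e)
  s2 : ∀ e, μ₂ e = (x.2 (d.s₂ e))⁻¹ * x.2 (d.t₂ e)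
  s3 : ∀ e, d.D.AV.A e ≠ d.D.R.φ e → a e = (x.2 (d.vt e))⁻¹ * x.2 (d.vt (d.D.AV.A e))

/-- the labelling of the surface: vertical part -/
noncomputable def vv {M : Type} [Group M] (m : Model n X Y) (p : m.GV → M) (κ : m.C.Cor) : M :=
  (ext m p (m.C.vert κ))⁻¹ * ext m p (m.C.vert (m.quad.fc κ))

/-- the labelling of the surface: horizontal part -/
noncomputable def vh {M : Type} [Group M] (m : Model n X Y) (h : FreeGroup (Fin n) →* M)
    (p : m.GV → M) (κ : m.C.Cor) : M :=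
  (ext m p (m.C.vert κ))⁻¹ * hval m h κ * ext m p (m.C.vert (m.quad.fa κ))

theorem rep (q : QB m) {M : Type} [Group M] (h : FreeGroup (Fin n) →* M) (p : m.GV → M) :
    m.quad.Rep (vv m p) (vh m h p) where
  fcV κ := by
    unfold vv
    rw [m.quad.fcfc]
    simp
  etaV κ := by
    unfold vv
    rw [← m.quad.etafc, q.q9, q.q9]
  faH κ := by
    unfold vh
    rw [m.quad.fafa, hval_fa]
    simp [mul_assoc]
  nuH κ := by
    have h1 : m.C.vert (m.quad.fa (m.quad.nu κ)) = m.C.vert (m.quad.fa κ) := by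
      rw [← m.quad.nufa κ]
      exact q.q8 _
    unfold vh
    rw [h1, q.q8, hval_of_hgerm m h _ _ (q.q3 κ)]
  flat κ := by
    unfold vh vv
    rw [hval_fc, m.quad.fafc κ]
    group

theorem pot (q : QB m) {M : Type} [Group M] (p : m.GV → M) :
    m.quad.Pot (vv m p) (fun κ => ext m p (m.C.vert κ)) where
  nu κ := by simp only [q.q8]
  eta κ := by simp only [q.q9]
  fc κ := rfl

/-- horizontal special sides -/
theorem vh_sp {M : Type} [Group M] {o : m.GV} {μ₁ : {e : m.C.A // m.Sp₁ e} → M}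
    {μ₂ : {e : m.C.B // m.Sp₂ e} → M} {a : d.D.R.E → M}
    {x : (FreeGroup (Fin n) →* M) × (m.GV → M)} (hx : d.IsSol o μ₁ μ₂ a x) (κ : m.C.Cor)
    (h : m.Sp₁ (m.C.hside (κ.1, κ.2.2))) :
    vh m x.1 x.2 κ = if (!κ.2.1) = true then μ₁ ⟨m.C.hside (κ.1, κ.2.2), h⟩
      else (μ₁ ⟨m.C.hside (κ.1, κ.2.2), h⟩)⁻¹ := by
  obtain ⟨s, b, c⟩ := κ
  have e0 := hx.s1 ⟨m.C.hside (s, c), h⟩
  have e1 : ext m x.2 (m.C.s₁ (m.C.hside (s, c))) = x.2 (d.s₁ ⟨m.C.hside (s, c), h⟩) :=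
    (congrArg (ext m x.2) (d.hs₁ ⟨m.C.hside (s, c), h⟩)).symm.trans (ext_of _ _)
  have e2 : ext m x.2 (m.C.t₁ (m.C.hside (s, c))) = x.2 (d.t₁ ⟨m.C.hside (s, c), h⟩) :=
    (congrArg (ext m x.2) (d.ht₁ ⟨m.C.hside (s, c), h⟩)).symm.trans (ext_of _ _)
  rw [← e1, ← e2] at e0
  cases b with
  | false =>
    simp only [Bool.not_false, if_true]
    rw [e0]
    rfl
  | true =>
    simp only [Bool.not_true, Bool.false_eq_true, if_false]
    rw [e0]
    show (ext m x.2 (m.C.t₁ (m.C.hside (s, c))))⁻¹ *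
      (x.1 (of (m.C.l₁ (m.C.hside (s, c)))))⁻¹ * ext m x.2 (m.C.s₁ (m.C.hside (s, c))) = _
    group

/-- vertical special sides -/
theorem vv_sp (q : QB m) {M : Type} [Group M] {o : m.GV} {μ₁ : {e : m.C.A // m.Sp₁ e} → M}
    {μ₂ : {e : m.C.B // m.Sp₂ e} → M} {a : d.D.R.E → M}
    {x : (FreeGroup (Fin n) →* M) × (m.GV → M)} (hx : d.IsSol o μ₁ μ₂ a x) (κ : m.C.Cor)
    (h : m.Sp₂ (m.C.vside (κ.1, κ.2.1))) :
    vv m x.2 κ = if (!κ.2.2) = true then μ₂ ⟨m.C.vside (κ.1, κ.2.1), h⟩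
      else (μ₂ ⟨m.C.vside (κ.1, κ.2.1), h⟩)⁻¹ := by
  have hv : vv m x.2 κ = (ext m x.2 (m.C.org (m.C.vgerm κ)))⁻¹ *
      ext m x.2 (m.C.org (inv (m.C.vgerm κ))) := by
    unfold vv
    rw [q.vert_fc, q.q7]
  rw [hv]
  obtain ⟨s, b, c⟩ := κ
  have e0 := hx.s2 ⟨m.C.vside (s, b), h⟩
  have e1 : ext m x.2 (m.C.s₂ (m.C.vside (s, b))) = x.2 (d.s₂ ⟨m.C.vside (s, b), h⟩) :=
    (congrArg (ext m x.2) (d.hs₂ ⟨m.C.vside (s, b), h⟩)).symm.trans (ext_of _ _)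
  have e2 : ext m x.2 (m.C.t₂ (m.C.vside (s, b))) = x.2 (d.t₂ ⟨m.C.vside (s, b), h⟩) :=
    (congrArg (ext m x.2) (d.ht₂ ⟨m.C.vside (s, b), h⟩)).symm.trans (ext_of _ _)
  rw [← e1, ← e2] at e0
  cases c with
  | false =>
    simp only [Bool.not_false, if_true]
    rw [e0]
    rfl
  | true =>
    simp only [Bool.not_true, Bool.false_eq_true, if_false]
    rw [e0]
    show (ext m x.2 (m.C.t₂ (m.C.vside (s, b))))⁻¹ * ext m x.2 (m.C.s₂ (m.C.vside (s, b))) = _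
    group

/-- the boundary values are given by the labels of the special edges -/
theorem bv_eq (q : QB m) {M : Type} [Group M] {o : m.GV} {μ₁ : {e : m.C.A // m.Sp₁ e} → M}
    {μ₂ : {e : m.C.B // m.Sp₂ e} → M} {a : d.D.R.E → M}
    {x : (FreeGroup (Fin n) →* M) × (m.GV → M)} (hx : d.IsSol o μ₁ μ₂ a x) (y : d.D.R.E) :
    d.D.bv (vv m x.2) (vh m x.1 x.2) y = bval d.bd μ₁ μ₂ y := by
  unfold Quad.RimData.bv bval
  cases hy : (d.D.e y).1.2 with
  | false =>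
    rw [d.bd_false' q y hy]
    simp only [Bool.false_eq_true, if_false, Sum.elim_inl]
    exact d.vh_sp hx _ (d.sp_false q y hy)
  | true =>
    rw [d.bd_true' q y hy]
    simp only [if_true, Sum.elim_inr]
    exact d.vv_sp q hx _ (d.sp_true q y hy)

/-- the orbit of a corner at a vertex of `GV` meets the boundary -/
theorem meets (q : QB m) (h4 : ∀ κ, (∀ κ', Orb m.quad.nu m.quad.eta κ κ' →
      m.quad.nu κ' ≠ κ' ∧ m.quad.eta κ' ≠ κ') →
      (∀ κ', m.C.vert κ' = m.C.vert κ → Orb m.quad.nu m.quad.eta κ κ') ∧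
      (∀ (e : m.C.A) (b : Bool), m.Sp₁ e → m.C.org (.inl e, b) ≠ m.C.vert κ) ∧
      (∀ (e : m.C.B) (b : Bool), m.Sp₂ e → m.C.org (.inr e, b) ≠ m.C.vert κ)) (κ : m.C.Cor) :
    (∃ x, Orb m.quad.nu m.quad.eta κ (d.D.e x).1.1) ∨
    ((∀ κ', m.C.vert κ' = m.C.vert κ → Orb m.quad.nu m.quad.eta κ κ') ∧
      ∀ g : m.GV, g.1 ≠ m.C.vert κ) := by
  by_cases h : ∀ κ', Orb m.quad.nu m.quad.eta κ κ' → m.quad.nu κ' ≠ κ' ∧ m.quad.eta κ' ≠ κ'
  · right
    obtain ⟨h1, h2, h3⟩ := h4 κ h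
    refine ⟨h1, ?_⟩
    rintro ⟨v, hv⟩ hg
    rcases hv with ⟨e, b, hs, hv⟩ | ⟨e, b, hs, hv⟩
    · exact h2 e b hs (hv.trans hg)
    · exact h3 e b hs (hv.trans hg)
  · left
    push Not at h
    obtain ⟨κ', h1, h2⟩ := h
    by_cases h5 : m.quad.nu κ' = κ'
    · obtain ⟨x, hx⟩ := d.exists_x_false q κ' ((q.q1 κ').1 h5)
      exact ⟨x, by rw [hx]; exact h1⟩
    · have h6 := h2 h5
      obtain ⟨x, hx⟩ := d.exists_x_true q κ' ((q.q2 κ').1 h6)
      exact ⟨x, by rw [hx]; exact h1⟩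

theorem uniqueness (q : QB m) (h4 : ∀ κ, (∀ κ', Orb m.quad.nu m.quad.eta κ κ' →
      m.quad.nu κ' ≠ κ' ∧ m.quad.eta κ' ≠ κ') →
      (∀ κ', m.C.vert κ' = m.C.vert κ → Orb m.quad.nu m.quad.eta κ κ') ∧
      (∀ (e : m.C.A) (b : Bool), m.Sp₁ e → m.C.org (.inl e, b) ≠ m.C.vert κ) ∧
      (∀ (e : m.C.B) (b : Bool), m.Sp₂ e → m.C.org (.inr e, b) ≠ m.C.vert κ))
    (hst : m.quad.Strips) (hfo : m.quad.Forest) (hg : GaugeStatement)
    {M : Type} [Group M] {o : m.GV} {μ₁ : {e : m.C.A // m.Sp₁ e} → M}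
    {μ₂ : {e : m.C.B // m.Sp₂ e} → M} {a : d.D.R.E → M}
    {x x' : (FreeGroup (Fin n) →* M) × (m.GV → M)} (hx : d.IsSol o μ₁ μ₂ a x)
    (hx' : d.IsSol o μ₁ μ₂ a x') : x = x' := by
  classical
  obtain ⟨γ, hγ1, hγ2, hγ3, hγ4, hγ5⟩ := hg m.quad d.D hst hfo M (vv m x.2) (vh m x.1 x.2)
    (fun κ => ext m x.2 (m.C.vert κ)) (vv m x'.2) (vh m x'.1 x'.2)
    (fun κ => ext m x'.2 (m.C.vert κ)) (rep q x.1 x.2) (rep q x'.1 x'.2) (pot q x.2) (pot q x'.2)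
    (fun y => (d.bv_eq q hx y).trans (d.bv_eq q hx' y).symm) (by
      intro y hy
      simp only
      rw [← d.hvt, ← d.hvt, ext_of, ext_of, ext_of, ext_of, ← hx.s3 y (d.AV_ne y hy),
        ← hx'.s3 y (d.AV_ne y hy)])
  have hγo : ∀ κ κ', Orb m.quad.nu m.quad.eta κ κ' → γ κ' = γ κ := fun κ κ' h =>
    orb_const γ hγ1 hγ2 h
  -- `γ` is a function of the vertex
  have hγv : ∀ κ κ' : m.C.Cor, m.C.vert κ = m.C.vert κ' → γ κ = γ κ' := by
    intro κ κ' h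
    rcases d.meets q h4 κ with ⟨y, hy⟩ | ⟨h1, -⟩
    · rcases d.meets q h4 κ' with ⟨y', hy'⟩ | ⟨h1', -⟩
      · rw [← hγo _ _ hy, ← hγo _ _ hy', hγ3, hγ3]
      · exact hγo _ _ (h1' κ h)
    · exact (hγo _ _ (h1 κ' h.symm)).symm
  have hγg : ∀ (κ : m.C.Cor) (g : m.GV), g.1 = m.C.vert κ → γ κ = 1 := by
    intro κ g h
    rcases d.meets q h4 κ with ⟨y, hy⟩ | ⟨-, h1⟩
    · rw [← hγo _ _ hy, hγ3]
    · exact absurd h (h1 g)
  let Γ : m.C.V → M := fun v => if h : ∃ κ : m.C.Cor, m.C.vert κ = v then γ h.choose else 1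
  have hΓ : ∀ κ : m.C.Cor, Γ (m.C.vert κ) = γ κ := by
    intro κ
    have h : ∃ κ' : m.C.Cor, m.C.vert κ' = m.C.vert κ := ⟨κ, rfl⟩
    have h1 : Γ (m.C.vert κ) = γ h.choose := dif_pos h
    rw [h1]
    exact hγv _ _ h.choose_spec
  have hΓg : ∀ g : m.GV, Γ g.1 = 1 := by
    intro g
    by_cases h : ∃ κ : m.C.Cor, m.C.vert κ = g.1
    · obtain ⟨κ, hκ⟩ := h
      rw [← hκ, hΓ]
      exact hγg κ g hκ.symm
    · exact dif_neg h
  let P : m.C.V → M := fun v => ext m x.2 v * Γ v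
  let P' : m.C.V → M := fun v => ext m x'.2 v
  -- the two solutions give the same labelling of the complex
  have hA : ∀ e : m.C.A, (P (m.C.s₁ e))⁻¹ * x.1 (of (m.C.l₁ e)) * P (m.C.t₁ e) =
      (P' (m.C.s₁ e))⁻¹ * x'.1 (of (m.C.l₁ e)) * P' (m.C.t₁ e) := by
    intro e
    by_cases he : m.Sp₁ e
    · have e0 := hx.s1 ⟨e, he⟩
      have e0' := hx'.s1 ⟨e, he⟩
      have e1 : ∀ p : m.GV → M, ext m p (m.C.s₁ e) = p (d.s₁ ⟨e, he⟩) := by
        intro p; exact (congrArg (ext m p) (d.hs₁ ⟨e, he⟩)).symm.trans (ext_of _ _)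
      have e2 : ∀ p : m.GV → M, ext m p (m.C.t₁ e) = p (d.t₁ ⟨e, he⟩) := by
        intro p; exact (congrArg (ext m p) (d.ht₁ ⟨e, he⟩)).symm.trans (ext_of _ _)
      have e3 : Γ (m.C.s₁ e) = 1 := by rw [← d.hs₁ ⟨e, he⟩]; exact hΓg _
      have e4 : Γ (m.C.t₁ e) = 1 := by rw [← d.ht₁ ⟨e, he⟩]; exact hΓg _
      simp only [P, P', e1, e2, e3, e4, mul_one]
      exact e0.symm.trans e0'
    · obtain ⟨κ, hκ⟩ := exists_h m e he
      have h5 := hγ5 κ
      have v1 : m.C.vert κ = m.C.s₁ e := by rw [vert_eq, hκ]; rfl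
      have v2 : m.C.vert (m.quad.fa κ) = m.C.t₁ e := by rw [vert_fa, hκ]; rfl
      have l1 : ∀ h : FreeGroup (Fin n) →* M, hval m h κ = h (of (m.C.l₁ e)) := by
        intro h
        have a1 : m.C.hside (κ.1, κ.2.2) = e := Sum.inl.inj (congrArg Prod.fst hκ)
        have a2 : (!κ.2.1) = true := congrArg Prod.snd hκ
        have a3 : ¬ κ.2.1 = true := by
          intro h; rw [h] at a2; exact absurd a2 (by decide)
        unfold hval
        rw [if_neg a3, a1]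
      have g1 := hΓ κ
      have g2 := hΓ (m.quad.fa κ)
      rw [v1] at g1
      rw [v2] at g2
      unfold vh at h5
      rw [v1, v2, l1, l1, ← g1, ← g2] at h5
      simp only [P, P']
      rw [h5]
      group
  have hB : ∀ e : m.C.B, (P (m.C.s₂ e))⁻¹ * P (m.C.t₂ e) =
      (P' (m.C.s₂ e))⁻¹ * P' (m.C.t₂ e) := by
    intro e
    by_cases he : m.Sp₂ e
    · have e0 := hx.s2 ⟨e, he⟩
      have e0' := hx'.s2 ⟨e, he⟩
      have e1 : ∀ p : m.GV → M, ext m p (m.C.s₂ e) = p (d.s₂ ⟨e, he⟩) := by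
        intro p; exact (congrArg (ext m p) (d.hs₂ ⟨e, he⟩)).symm.trans (ext_of _ _)
      have e2 : ∀ p : m.GV → M, ext m p (m.C.t₂ e) = p (d.t₂ ⟨e, he⟩) := by
        intro p; exact (congrArg (ext m p) (d.ht₂ ⟨e, he⟩)).symm.trans (ext_of _ _)
      have e3 : Γ (m.C.s₂ e) = 1 := by rw [← d.hs₂ ⟨e, he⟩]; exact hΓg _
      have e4 : Γ (m.C.t₂ e) = 1 := by rw [← d.ht₂ ⟨e, he⟩]; exact hΓg _
      simp only [P, P', e1, e2, e3, e4, mul_one]
      exact e0.symm.trans e0'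
    · obtain ⟨κ, hκ⟩ := exists_v m e he
      have h5 := hγ4 κ
      have v1 : m.C.vert κ = m.C.s₂ e := by rw [← q.q7, hκ]; rfl
      have v2 : m.C.vert (m.quad.fc κ) = m.C.t₂ e := by rw [q.vert_fc, hκ]; rfl
      have g1 := hΓ κ
      have g2 := hΓ (m.quad.fc κ)
      rw [v1] at g1
      rw [v2] at g2
      unfold vv at h5
      rw [v1, v2, ← g1, ← g2] at h5
      simp only [P, P']
      rw [h5]
      group
  let mu1 : m.C.A → M := fun e => (P (m.C.s₁ e))⁻¹ * x.1 (of (m.C.l₁ e)) * P (m.C.t₁ e)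
  let mu2 : m.C.B → M := fun e => (P (m.C.s₂ e))⁻¹ * P (m.C.t₂ e)
  have hflat : m.C.Flat mu1 mu2 := by
    intro s
    simp only [mu1, mu2]
    rw [m.C.h1, m.C.h2, m.C.h3, m.C.h4, m.C.h5]
    group
  have huniq := (m.univ.base o.1) M mu1 mu2 hflat
  have k1 := huniq.unique (y₁ := (x.1.comp m.eX.symm.toMonoidHom, P))
    (y₂ := (x'.1.comp m.eX.symm.toMonoidHom, P')) ⟨by
      simp only [P]
      rw [ext_of, hΓg, hx.s0, mul_one], by
      intro e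
      simp [mu1], by
      intro e
      simp [mu2]⟩ ⟨by
      simp only [P']
      rw [ext_of, hx'.s0], by
      intro e
      simp only [mu1]
      rw [hA e]
      simp, by
      intro e
      simp only [mu2]
      rw [hB e]
      simp⟩
  have k2 := congrArg Prod.fst k1
  have k3 := congrArg Prod.snd k1
  simp only at k2 k3
  refine Prod.ext ?_ ?_
  · ext i
    have := DFunLike.congr_fun k2 (m.eX (of i))
    simpa using this
  · funext g
    have := congrFun k3 g.1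
    simp only [P, P'] at this
    rw [ext_of, ext_of, hΓg, mul_one] at this
    exact this

/-- connectedness -/
theorem connected (q : QB m) (hT : Tame m) (h4 : ∀ κ, (∀ κ', Orb m.quad.nu m.quad.eta κ κ' →
      m.quad.nu κ' ≠ κ' ∧ m.quad.eta κ' ≠ κ') →
      (∀ κ', m.C.vert κ' = m.C.vert κ → Orb m.quad.nu m.quad.eta κ κ') ∧
      (∀ (e : m.C.A) (b : Bool), m.Sp₁ e → m.C.org (.inl e, b) ≠ m.C.vert κ) ∧
      (∀ (e : m.C.B) (b : Bool), m.Sp₂ e → m.C.org (.inr e, b) ≠ m.C.vert κ))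
    (hst : m.quad.Strips) (hfo : m.quad.Forest) (he : ExtendStatement) (f : m.GV → Bool)
    (hf : ∀ e, f (d.s₂ e) = f (d.t₂ e)) (hf' : ∀ x, f (d.vt (d.D.AV.A x)) = f (d.vt x))
    (g g' : m.GV) : f g = f g' := by
  classical
  obtain ⟨U, hU1, hU2, hU3, hU4⟩ := he m.quad d.D hst hfo Bool (fun x => f (d.vt x))
    (fun x => by rw [d.vt_orb q x _ (d.D.σ_orb x)]) hf'
  have hUo : ∀ κ κ', Orb m.quad.nu m.quad.eta κ κ' → U κ' = U κ := fun κ κ' h =>
    orb_const U hU1 hU2 h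
  let F : m.C.V → Bool := fun v => if h : (∃ (e : m.C.A) (b : Bool), m.Sp₁ e ∧
    m.C.org (.inl e, b) = v) ∨ ∃ (e : m.C.B) (b : Bool), m.Sp₂ e ∧ m.C.org (.inr e, b) = v
    then f ⟨v, h⟩ else if h : ∃ κ : m.C.Cor, m.C.vert κ = v then U h.choose else true
  have hFg : ∀ g : m.GV, F g.1 = f g := fun g => dif_pos g.2
  have hFκ : ∀ κ : m.C.Cor, F (m.C.vert κ) = U κ := by
    intro κ
    rcases d.meets q h4 κ with ⟨y, hy⟩ | ⟨h1, h2⟩
    · rw [← hUo _ _ hy, hU4]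
      have h3 : (d.vt y).1 = m.C.vert κ := by rw [d.hvt]; exact q.vert_orb hy
      rw [← h3, hFg]
    · have h3 : ¬ ((∃ (e : m.C.A) (b : Bool), m.Sp₁ e ∧
          m.C.org (.inl e, b) = m.C.vert κ) ∨ ∃ (e : m.C.B) (b : Bool), m.Sp₂ e ∧
          m.C.org (.inr e, b) = m.C.vert κ) := fun h => h2 ⟨m.C.vert κ, h⟩ rfl
      have h5 : ∃ κ' : m.C.Cor, m.C.vert κ' = m.C.vert κ := ⟨κ, rfl⟩
      have h6 : F (m.C.vert κ) = U h5.choose := by
        simp only [F]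
        rw [dif_neg h3, dif_pos h5]
      rw [h6]
      exact hUo _ _ (h1 _ h5.choose_spec)
  have hFB : ∀ e, F (m.C.s₂ e) = F (m.C.t₂ e) := by
    intro e
    by_cases he : m.Sp₂ e
    · rw [← d.hs₂ ⟨e, he⟩, ← d.ht₂ ⟨e, he⟩, hFg, hFg, hf]
    · obtain ⟨κ, hκ⟩ := exists_v m e he
      have v1 : m.C.vert κ = m.C.s₂ e := by rw [← q.q7, hκ]; rfl
      have v2 : m.C.vert (m.quad.fc κ) = m.C.t₂ e := by rw [q.vert_fc, hκ]; rfl
      rw [← v1, ← v2, hFκ, hFκ, hU3]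
  rw [← hFg g, ← hFg g']
  exact hT.con₂ F hFB _ _

end Dat

end SU76

open SU76

theorem surfUniv (hq : QuadBasicStatement) (hs : StripsStatement) (h3 : P3Statement)
    (h4 : P4Statement) (hf : QuadForestStatement) (e : ExtendStatement) (r : RecStatement)
    (g : GaugeStatement) : SurfUnivStatement := by
  intro n X Y m hT hX hY hX0 hY0 hTX hTY D vt bd hvt hbf hbt s₁ t₁ s₂ t₂ hs₁ ht₁ hs₂ ht₂
  let d : Dat m := ⟨D, vt, bd, hvt, hbf, hbt, s₁, t₁, s₂, t₂, hs₁, ht₁, hs₂, ht₂⟩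
  have q : QB m := qb m hq
  have hst := hs n X Y m
  have hfo := hf n X Y m (h3 n X Y m hT hX hY hX0 hY0 hTY)
  have hp4 := h4 n X Y m hT hX hY hX0 hY0 hTY
  refine ⟨?_, ?_⟩
  · intro o M _ μ₁ μ₂ a ha
    obtain ⟨x, k0, k1, k2, k3⟩ := d.existence q hst r o M μ₁ μ₂ a ha
    refine ⟨x, ⟨k0, k1, k2, k3⟩, ?_⟩
    rintro y ⟨j0, j1, j2, j3⟩
    exact d.uniqueness q hp4 hst hfo g (o := o) (μ₁ := μ₁) (μ₂ := μ₂) (a := a)
      ⟨j0, j1, j2, j3⟩ ⟨k0, k1, k2, k3⟩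
  · intro f hf hf'
    exact d.connected q hT hp4 hst hfo e f hf hf'

end Pool.Agent.Helper35_WH
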